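import Mathlib
set_option autoImplicit false
namespace Pool.Agent.Helper80.Fisk
open Polynomial MeasureTheory

/-- exponent -/
def E (a r j : ℕ) : ℕ := if j < a then j else j + r

theorem E_lt {n a r : ℕ} (j : Fin n) : E a r j < n + r := by
  unfold E; split_ifs <;> omega

/-- alternant -/
noncomputable def D (n a r : ℕ) (x : Fin n → ℝ) : ℝ :=
  (Matrix.of fun i j : Fin n => x i ^ E a r j).det

/-- coefficient sequence of a polynomial, extended by zero to negative indices -/
noncomputable def coefZ (p : ℝ[X]) (m : ℤ) : ℝ := if 0 ≤ m then p.coeff m.toNat else 0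

/-- Toeplitz determinant -/
noncomputable def T (f : ℤ → ℝ) (r : ℕ) (k : ℤ) : ℝ :=
  (Matrix.of fun i j : Fin r => f (k - (i:ℕ) + (j:ℕ))).det


section DJ
open Matrix

theorem dj_block {R : Type*} [CommRing R] {n : Type*} [Fintype n] [DecidableEq n]
    (M : Matrix (Fin 2 ⊕ n) (Fin 2 ⊕ n) R) :
    M.det * M.adjugate.toBlocks₁₁.det = M.det ^ 2 * M.toBlocks₂₂.det := by
  have h := Matrix.mul_adjugate M
  obtain ⟨A, hA⟩ : ∃ A, A = M.adjugate := ⟨_, rfl⟩
  obtain ⟨δ, hδ⟩ : ∃ δ, δ = M.det := ⟨_, rfl⟩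
  rw [← hA, ← hδ] at h ⊢
  have h2 : M * fromBlocks A.toBlocks₁₁ 0 A.toBlocks₂₁ (1 : Matrix n n R) =
      fromBlocks (δ • (1 : Matrix (Fin 2) (Fin 2) R)) M.toBlocks₁₂ 0 M.toBlocks₂₂ := by
    have h3 : fromBlocks M.toBlocks₁₁ M.toBlocks₁₂ M.toBlocks₂₁ M.toBlocks₂₂ *
        fromBlocks A.toBlocks₁₁ A.toBlocks₁₂ A.toBlocks₂₁ A.toBlocks₂₂ =
        fromBlocks (δ • (1 : Matrix (Fin 2) (Fin 2) R)) 0 0 (δ • (1 : Matrix n n R)) := by
      rw [fromBlocks_toBlocks, fromBlocks_toBlocks, h]
      ext (i | i) (j | j) <;> simp [Matrix.one_apply]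
    rw [fromBlocks_multiply, fromBlocks_inj] at h3
    obtain ⟨h11, -, h21, -⟩ := h3
    conv_lhs => rw [← fromBlocks_toBlocks M]
    rw [fromBlocks_multiply, h11, h21]
    simp
  have h4 := congrArg Matrix.det h2
  rw [Matrix.det_mul, det_fromBlocks_zero₁₂, det_fromBlocks_zero₂₁, det_one, mul_one, det_smul, det_one,
    Fintype.card_fin, mul_one] at h4
  rw [← hδ] at h4
  exact h4

/-- the reindexing -/
noncomputable def djE (m : ℕ) : Fin 2 ⊕ Fin m ≃ Fin (m + 2) :=
  Equiv.ofBijective (Sum.elim ![0, Fin.last (m + 1)] (fun k : Fin m => k.succ.castSucc)) (by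
    rw [Fintype.bijective_iff_injective_and_card]
    constructor
    · rintro (i | i) (j | j) h
      · fin_cases i <;> fin_cases j
        · rfl
        · exfalso
          have := congrArg Fin.val h
          simp at this
        · exfalso
          have := congrArg Fin.val h
          simp at this
        · rfl
      · exfalso
        have := congrArg Fin.val h
        have hj := j.2
        fin_cases i <;> simp at this
        omega
      · exfalso
        have := congrArg Fin.val h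
        have hi := i.2
        fin_cases j <;> simp at this
        omega
      · have := congrArg Fin.val h
        simp at this
        rw [Fin.ext this]
    · simp; omega)

theorem dj_pre {R : Type*} [CommRing R] (m : ℕ) (M : Matrix (Fin (m+2)) (Fin (m+2)) R) :
    M.det * ((M.submatrix (Fin.succ : Fin (m+1) → Fin (m+2)) (Fin.succ : Fin (m+1) → Fin (m+2))).det *
      (M.submatrix (Fin.castSucc : Fin (m+1) → Fin (m+2)) (Fin.castSucc : Fin (m+1) → Fin (m+2))).det
    - (M.submatrix (Fin.succ : Fin (m+1) → Fin (m+2)) (Fin.castSucc : Fin (m+1) → Fin (m+2))).det *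
      (M.submatrix (Fin.castSucc : Fin (m+1) → Fin (m+2)) (Fin.succ : Fin (m+1) → Fin (m+2))).det) =
    M.det * (M.det * (M.submatrix (fun i : Fin m => i.succ.castSucc) (fun j : Fin m => j.succ.castSucc)).det) := by
  have h := dj_block (M.submatrix (djE m) (djE m))
  rw [det_submatrix_equiv_self, adjugate_submatrix_equiv_self] at h
  have e1 : (M.submatrix (djE m) (djE m)).toBlocks₂₂ =
      M.submatrix (fun i : Fin m => i.succ.castSucc) (fun j : Fin m => j.succ.castSucc) := rfl
  have e2 : ((M.adjugate).submatrix (djE m) (djE m)).toBlocks₁₁.det =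
      M.adjugate 0 0 * M.adjugate (Fin.last (m + 1)) (Fin.last (m + 1)) -
      M.adjugate 0 (Fin.last (m + 1)) * M.adjugate (Fin.last (m + 1)) 0 := by
    rw [det_fin_two]
    rfl
  rw [e1, e2] at h
  have a00 : M.adjugate 0 0 = (M.submatrix (Fin.succ : Fin (m+1) → Fin (m+2)) (Fin.succ : Fin (m+1) → Fin (m+2))).det := by
    rw [adjugate_fin_succ_eq_det_submatrix, Fin.succAbove_zero]
    simp
  have all : M.adjugate (Fin.last (m + 1)) (Fin.last (m + 1)) =
      (M.submatrix (Fin.castSucc : Fin (m+1) → Fin (m+2)) (Fin.castSucc : Fin (m+1) → Fin (m+2))).det := by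
    rw [adjugate_fin_succ_eq_det_submatrix, Fin.succAbove_last]
    have : ((-1 : R)) ^ (((Fin.last (m + 1) : Fin (m + 2)) : ℕ) + ((Fin.last (m + 1) : Fin (m + 2)) : ℕ)) = 1 := by
      rw [← two_mul, pow_mul]; simp
    rw [this, one_mul]
  have a0l : M.adjugate 0 (Fin.last (m + 1)) =
      (-1) ^ (m + 1) * (M.submatrix (Fin.castSucc : Fin (m+1) → Fin (m+2)) (Fin.succ : Fin (m+1) → Fin (m+2))).det := by
    rw [adjugate_fin_succ_eq_det_submatrix, Fin.succAbove_last, Fin.succAbove_zero]
    simp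
  have al0 : M.adjugate (Fin.last (m + 1)) 0 =
      (-1) ^ (m + 1) * (M.submatrix (Fin.succ : Fin (m+1) → Fin (m+2)) (Fin.castSucc : Fin (m+1) → Fin (m+2))).det := by
    rw [adjugate_fin_succ_eq_det_submatrix, Fin.succAbove_last, Fin.succAbove_zero]
    simp
  rw [a00, all, a0l, al0] at h
  have hs : ((-1 : R) ^ (m + 1)) * ((-1 : R) ^ (m + 1)) = 1 := by
    rw [← pow_add, ← two_mul, pow_mul]; simp
  rw [sq] at h
  linear_combination h + (M.det * (M.submatrix (Fin.castSucc : Fin (m+1) → Fin (m+2)) (Fin.succ : Fin (m+1) → Fin (m+2))).det *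
    (M.submatrix (Fin.succ : Fin (m+1) → Fin (m+2)) (Fin.castSucc : Fin (m+1) → Fin (m+2))).det) * hs

end DJ

theorem desnanot_jacobi {R : Type*} [CommRing R] (m : ℕ) (M : Matrix (Fin (m+2)) (Fin (m+2)) R) :
    M.det * (M.submatrix (fun i : Fin m => i.succ.castSucc) (fun j : Fin m => j.succ.castSucc)).det =
    (M.submatrix (Fin.succ : Fin (m+1) → Fin (m+2)) (Fin.succ : Fin (m+1) → Fin (m+2))).det *
      (M.submatrix (Fin.castSucc : Fin (m+1) → Fin (m+2)) (Fin.castSucc : Fin (m+1) → Fin (m+2))).det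
    - (M.submatrix (Fin.succ : Fin (m+1) → Fin (m+2)) (Fin.castSucc : Fin (m+1) → Fin (m+2))).det *
      (M.submatrix (Fin.castSucc : Fin (m+1) → Fin (m+2)) (Fin.succ : Fin (m+1) → Fin (m+2))).det := by
  have hX := Matrix.det_mvPolynomialX_ne_zero (Fin (m + 2)) ℤ
  have hpre := mul_left_cancel₀ hX (dj_pre m (Matrix.mvPolynomialX (Fin (m + 2)) (Fin (m + 2)) ℤ))
  obtain ⟨φ, hφ⟩ : ∃ φ : MvPolynomial (Fin (m + 2) × Fin (m + 2)) ℤ →+* R, ∀ i j, φ (MvPolynomial.X (i, j)) = M i j :=
    ⟨(MvPolynomial.aeval (R := ℤ) (fun p : Fin (m + 2) × Fin (m + 2) => M p.1 p.2)).toRingHom, fun i j => by simp⟩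
  have hmap : ∀ (k : ℕ) (f g : Fin k → Fin (m + 2)),
      φ (((Matrix.mvPolynomialX (Fin (m + 2)) (Fin (m + 2)) ℤ).submatrix f g).det) = (M.submatrix f g).det := by
    intro k f g
    rw [RingHom.map_det]
    congr 1
    ext i j
    simp [hφ]
  have hdet : φ ((Matrix.mvPolynomialX (Fin (m + 2)) (Fin (m + 2)) ℤ).det) = M.det := by
    rw [RingHom.map_det]
    congr 1
    ext i j
    simp [hφ]
  have h2 := congrArg φ hpre
  rw [map_sub, map_mul, map_mul, map_mul, hdet, hmap, hmap, hmap, hmap, hmap] at h2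
  exact h2.symm

theorem toeplitz_condense (f : ℤ → ℝ) (m : ℕ) (k : ℤ) :
    T f (m+2) k * T f m k = T f (m+1) k ^ 2 - T f (m+1) (k-1) * T f (m+1) (k+1) := by
  have h := desnanot_jacobi m (Matrix.of fun i j : Fin (m+2) => f (k - (i:ℕ) + (j:ℕ)))
  have e1 : (Matrix.of fun i j : Fin (m+2) => f (k - (i:ℕ) + (j:ℕ))).submatrix
      (fun i : Fin m => i.succ.castSucc) (fun j : Fin m => j.succ.castSucc) =
      Matrix.of fun i j : Fin m => f (k - (i:ℕ) + (j:ℕ)) := by
    ext i j
    simp only [Matrix.submatrix_apply, Matrix.of_apply, Fin.val_castSucc, Fin.val_succ]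
    congr 1; push_cast; ring
  have e2 : (Matrix.of fun i j : Fin (m+2) => f (k - (i:ℕ) + (j:ℕ))).submatrix
      (Fin.succ : Fin (m+1) → Fin (m+2)) (Fin.succ : Fin (m+1) → Fin (m+2)) =
      Matrix.of fun i j : Fin (m+1) => f (k - (i:ℕ) + (j:ℕ)) := by
    ext i j
    simp only [Matrix.submatrix_apply, Matrix.of_apply, Fin.val_succ]
    congr 1; push_cast; ring
  have e3 : (Matrix.of fun i j : Fin (m+2) => f (k - (i:ℕ) + (j:ℕ))).submatrix
      (Fin.castSucc : Fin (m+1) → Fin (m+2)) (Fin.castSucc : Fin (m+1) → Fin (m+2)) =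
      Matrix.of fun i j : Fin (m+1) => f (k - (i:ℕ) + (j:ℕ)) := by
    ext i j
    simp only [Matrix.submatrix_apply, Matrix.of_apply, Fin.val_castSucc]
  have e4 : (Matrix.of fun i j : Fin (m+2) => f (k - (i:ℕ) + (j:ℕ))).submatrix
      (Fin.succ : Fin (m+1) → Fin (m+2)) (Fin.castSucc : Fin (m+1) → Fin (m+2)) =
      Matrix.of fun i j : Fin (m+1) => f (k - 1 - (i:ℕ) + (j:ℕ)) := by
    ext i j
    simp only [Matrix.submatrix_apply, Matrix.of_apply, Fin.val_castSucc, Fin.val_succ]
    congr 1; push_cast; ring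
  have e5 : (Matrix.of fun i j : Fin (m+2) => f (k - (i:ℕ) + (j:ℕ))).submatrix
      (Fin.castSucc : Fin (m+1) → Fin (m+2)) (Fin.succ : Fin (m+1) → Fin (m+2)) =
      Matrix.of fun i j : Fin (m+1) => f (k + 1 - (i:ℕ) + (j:ℕ)) := by
    ext i j
    simp only [Matrix.submatrix_apply, Matrix.of_apply, Fin.val_castSucc, Fin.val_succ]
    congr 1; push_cast; ring
  rw [e1, e2, e3, e4, e5] at h
  unfold T
  rw [h]; ring


theorem det_select_aux {R : Type*} [CommRing R] (n a : ℕ) (ha : a ≤ n) (r : ℕ) :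
    ∀ (N : ℕ) (hN : N = n + r) (W : Matrix (Fin n) (Fin N) R),
    (Matrix.of fun i j : Fin N => if h : (i:ℕ) < n then W ⟨i, h⟩ j
        else if (j:ℕ) = a + ((i:ℕ) - n) then (1:R) else 0).det
      = (-1)^(r*(n-a)) * (Matrix.of fun (i j : Fin n) => W i ⟨E a r j, hN ▸ E_lt j⟩).det := by
  induction r with
  | zero =>
    intro N hN W
    simp only [Nat.add_zero] at hN
    subst hN
    simp only [Nat.zero_mul, pow_zero, one_mul]
    congr 1
    ext i j
    simp only [Matrix.of_apply]
    rw [dif_pos i.2]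
    congr 1
    apply Fin.ext
    simp only [E]
    split_ifs <;> omega
  | succ r ih =>
    intro N hN W
    obtain ⟨M, rfl⟩ : ∃ M, N = M + 1 := ⟨n + r, by omega⟩
    have hM' : M = n + r := by omega
    have hlt : a + r < M + 1 := by omega
    rw [Matrix.det_succ_row _ (Fin.last M)]
    rw [Finset.sum_eq_single (⟨a + r, hlt⟩ : Fin (M + 1))]
    · have hM : ((Matrix.of fun i j : Fin (M + 1) => if h : (i:ℕ) < n then W ⟨i, h⟩ j
          else if (j:ℕ) = a + ((i:ℕ) - n) then (1:R) else 0).submatrix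
            (Fin.succAbove (Fin.last M)) (Fin.succAbove (⟨a + r, hlt⟩ : Fin (M + 1))))
          = (Matrix.of fun i j : Fin M => if h : (i:ℕ) < n then
              (fun (i : Fin n) (j : Fin M) =>
                W i (Fin.succAbove (⟨a + r, hlt⟩ : Fin (M + 1)) j)) ⟨i, h⟩ j
              else if (j:ℕ) = a + ((i:ℕ) - n) then (1:R) else 0) := by
        ext i j
        simp only [Matrix.submatrix_apply, Matrix.of_apply, Fin.succAbove_last, Fin.val_castSucc]
        have hi := i.2
        by_cases h1 : (i : ℕ) < n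
        · rw [dif_pos h1, dif_pos h1]
        · rw [dif_neg h1, dif_neg h1]
          have hiff : ((Fin.succAbove (⟨a + r, hlt⟩ : Fin (M + 1)) j : Fin (M + 1)) : ℕ)
              = a + ((i:ℕ) - n) ↔ (j:ℕ) = a + ((i:ℕ) - n) := by
            unfold Fin.succAbove
            split_ifs with h4
            · simp
            · simp only [Fin.lt_def, Fin.val_castSucc, Fin.val_succ] at h4 ⊢
              omega
          simp only [hiff]
      have hW : (Matrix.of fun (i j : Fin n) =>
            (fun (i : Fin n) (j : Fin M) =>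
                W i (Fin.succAbove (⟨a + r, hlt⟩ : Fin (M + 1)) j)) i ⟨E a r j, hM' ▸ E_lt j⟩)
          = (Matrix.of fun (i j : Fin n) => W i ⟨E a (r + 1) j, hN ▸ E_lt j⟩) := by
        ext i j
        simp only [Matrix.of_apply]
        congr 1
        apply Fin.ext
        unfold Fin.succAbove
        split_ifs with h4
        · simp only [Fin.lt_def, Fin.val_castSucc] at h4 ⊢
          unfold E at h4 ⊢
          split_ifs at h4 ⊢ <;> omega
        · simp only [Fin.lt_def, Fin.val_castSucc, Fin.val_succ] at h4 ⊢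
          unfold E at h4 ⊢
          split_ifs at h4 ⊢ <;> omega
      have hI := ih M hM' (fun (i : Fin n) (j : Fin M) =>
                W i (Fin.succAbove (⟨a + r, hlt⟩ : Fin (M + 1)) j))
      rw [hM, hI, hW]
      have he : (Matrix.of fun i j : Fin (M + 1) => if h : (i:ℕ) < n then W ⟨i, h⟩ j
        else if (j:ℕ) = a + ((i:ℕ) - n) then (1:R) else 0) (Fin.last M)
          (⟨a + r, hlt⟩ : Fin (M + 1)) = 1 := by
        simp only [Matrix.of_apply]
        rw [dif_neg (by simp [hM']), if_pos (by simp [hM'])]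
      rw [he, mul_one, ← mul_assoc]
      congr 1
      rw [← pow_add]
      have : ((Fin.last M : Fin (M + 1)) : ℕ) + ((⟨a + r, hlt⟩ : Fin (M + 1)) : ℕ)
          + r * (n - a) = 2 * (a + r) + (r + 1) * (n - a) := by
        simp only [Fin.val_last]
        obtain ⟨d, rfl⟩ : ∃ d, n = a + d := ⟨n - a, by omega⟩
        rw [hM', Nat.add_sub_cancel_left]
        ring
      rw [this, pow_add, pow_mul]
      simp
    · intro j _ hj
      have he : (Matrix.of fun i j : Fin (M + 1) => if h : (i:ℕ) < n then W ⟨i, h⟩ j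
        else if (j:ℕ) = a + ((i:ℕ) - n) then (1:R) else 0) (Fin.last M) j = 0 := by
        simp only [Matrix.of_apply]
        rw [dif_neg (by simp [hM']), if_neg]
        intro h
        apply hj
        apply Fin.ext
        rw [h]
        simp [hM']
      rw [he, mul_zero, zero_mul]
    · intro h
      exact absurd (Finset.mem_univ _) h

theorem det_select {R : Type*} [CommRing R] (n a : ℕ) (ha : a ≤ n) (r : ℕ)
    (W : Matrix (Fin n) (Fin (n+r)) R) :
    (Matrix.of fun i j : Fin (n+r) => if h : (i:ℕ) < n then W ⟨i, h⟩ j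
        else if (j:ℕ) = a + ((i:ℕ) - n) then (1:R) else 0).det
      = (-1)^(r*(n-a)) * (Matrix.of fun (i j : Fin n) => W i ⟨E a r j, E_lt j⟩).det := by
  exact det_select_aux n a ha r (n + r) rfl W


/-- column polynomials -/
noncomputable def bialtP {R : Type*} [CommRing R] (n : ℕ) (f : R[X]) (l : ℕ) : R[X] :=
  if l < n then X ^ l else X ^ (l - n) * f

theorem bialtP_monic {R : Type*} [CommRing R] {n : ℕ} {f : R[X]} (hf : f.Monic) (l : ℕ) :
    (bialtP n f l).Monic := by
  unfold bialtP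
  split_ifs
  · exact monic_X_pow l
  · exact (monic_X_pow _).mul hf

theorem bialtP_natDegree {R : Type*} [CommRing R] [Nontrivial R] {n : ℕ} {f : R[X]}
    (hf : f.Monic) (hn : f.natDegree = n) (l : ℕ) : (bialtP n f l).natDegree = l := by
  unfold bialtP
  split_ifs with h
  · exact natDegree_X_pow l
  · rw [(monic_X_pow (l - n)).natDegree_mul hf, natDegree_X_pow, hn]
    omega

theorem bialt_of {R : Type*} [CommRing R] (n a r : ℕ) (ha : a ≤ n) (z : Fin n → R)
    (det_select : ∀ W : Matrix (Fin n) (Fin (n+r)) R,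
      (Matrix.of fun i j : Fin (n+r) => if h : (i:ℕ) < n then W ⟨i, h⟩ j
        else if (j:ℕ) = a + ((i:ℕ) - n) then (1:R) else 0).det
      = (-1)^(r*(n-a)) * (Matrix.of fun (i j : Fin n) => W i ⟨E a r j, E_lt j⟩).det) :
    (-1)^(r*(n-a)) * (Matrix.of fun (i j : Fin n) => z i ^ E a r j).det =
      (Matrix.vandermonde z).det * (Matrix.of fun i j : Fin r =>
        if (j:ℕ) ≤ a + (i:ℕ) then (∏ i, (X - C (z i))).coeff (a + i - j) else 0).det := by
  classical
  nontriviality R
  set f : R[X] := ∏ i, (X - C (z i)) with hfdef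
  have hf : f.Monic := monic_prod_of_monic _ _ fun i _ => monic_X_sub_C (z i)
  have hn : f.natDegree = n := by
    rw [hfdef, natDegree_prod_of_monic _ _ fun i _ => monic_X_sub_C (z i)]
    simp
  have hroot : ∀ i, f.eval (z i) = 0 := by
    intro i
    rw [hfdef, eval_prod]
    exact Finset.prod_eq_zero (Finset.mem_univ i) (by simp)
  set G : Matrix (Fin (n + r)) (Fin (n + r)) R :=
    Matrix.of fun i l => (bialtP n f (l : ℕ)).coeff (i : ℕ) with hG
  have hGdet : G.det = 1 := by
    rw [Matrix.det_of_upperTriangular]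
    · refine Finset.prod_eq_one fun i _ => ?_
      have h1 := bialtP_monic (n := n) hf (i : ℕ)
      have h2 := bialtP_natDegree (n := n) hf hn (i : ℕ)
      have h3 : (bialtP n f (i : ℕ)).coeff (bialtP n f (i : ℕ)).natDegree = 1 := h1
      rw [h2] at h3
      simpa [hG] using h3
    · intro i j hij
      have hij' : (j : ℕ) < (i : ℕ) := hij
      have h2 := bialtP_natDegree (n := n) hf hn (j : ℕ)
      simp only [hG, Matrix.of_apply]
      exact coeff_eq_zero_of_natDegree_lt (by rw [h2]; exact hij')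
  set Xm : Matrix (Fin (n + r)) (Fin (n + r)) R :=
    Matrix.of fun i j : Fin (n+r) => if h : (i:ℕ) < n then
        (Matrix.of fun (i : Fin n) (j : Fin (n + r)) => z i ^ (j : ℕ)) ⟨i, h⟩ j
        else if (j:ℕ) = a + ((i:ℕ) - n) then (1:R) else 0 with hXm
  have hsel := det_select (Matrix.of fun (i : Fin n) (j : Fin (n + r)) => z i ^ (j : ℕ))
  rw [← hXm] at hsel
  have hsel' : (-1)^(r*(n-a)) * (Matrix.of fun (i j : Fin n) => z i ^ E a r j).det = Xm.det := by
    rw [hsel]
    rfl
  rw [hsel']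
  have hmul : Xm.det = (Xm * G).det := by
    rw [Matrix.det_mul, hGdet, mul_one]
  rw [hmul]
  have htop : ∀ (i l : Fin (n + r)) (h : (i : ℕ) < n),
      (Xm * G) i l = (bialtP n f (l : ℕ)).eval (z ⟨i, h⟩) := by
    intro i l h
    rw [Matrix.mul_apply, eval_eq_sum_range' (n := n + r)
      (by rw [bialtP_natDegree hf hn]; exact l.2), Finset.sum_range]
    refine Finset.sum_congr rfl fun k _ => ?_
    simp only [hXm, hG, Matrix.of_apply, dif_pos h]
    ring
  have hbot : ∀ (i l : Fin (n + r)) (_ : ¬ (i : ℕ) < n),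
      (Xm * G) i l = (bialtP n f (l : ℕ)).coeff (a + ((i : ℕ) - n)) := by
    intro i l h
    have hlt : a + ((i : ℕ) - n) < n + r := by
      have := i.2
      omega
    rw [Matrix.mul_apply, Finset.sum_eq_single (⟨a + ((i : ℕ) - n), hlt⟩ : Fin (n + r))]
    · simp only [hXm, hG, Matrix.of_apply, dif_neg h, if_true, one_mul]
    · intro k _ hk
      have hk' : (k : ℕ) ≠ a + ((i : ℕ) - n) := fun h => hk (Fin.ext h)
      simp only [hXm, Matrix.of_apply, dif_neg h, if_neg hk', zero_mul]
    · intro h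
      exact absurd (Finset.mem_univ _) h
  rw [← Matrix.det_submatrix_equiv_self (finSumFinEquiv : Fin n ⊕ Fin r ≃ Fin (n + r))]
  have hblk : (Xm * G).submatrix (finSumFinEquiv : Fin n ⊕ Fin r ≃ Fin (n + r))
      (finSumFinEquiv : Fin n ⊕ Fin r ≃ Fin (n + r)) =
      Matrix.fromBlocks (Matrix.vandermonde z) 0
        (Matrix.of fun (i : Fin r) (l : Fin n) => (bialtP n f (l : ℕ)).coeff (a + (i : ℕ)))
        (Matrix.of fun i j : Fin r =>
          if (j:ℕ) ≤ a + (i:ℕ) then f.coeff (a + i - j) else 0) := by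
    ext i l
    rcases i with i | i <;> rcases l with l | l
    · have hi : ((finSumFinEquiv (Sum.inl i) : Fin (n + r)) : ℕ) < n := by simp
      rw [Matrix.submatrix_apply, htop _ _ hi, Matrix.fromBlocks_apply₁₁]
      simp [bialtP, Matrix.vandermonde_apply]
    · have hi : ((finSumFinEquiv (Sum.inl i) : Fin (n + r)) : ℕ) < n := by simp
      rw [Matrix.submatrix_apply, htop _ _ hi, Matrix.fromBlocks_apply₁₂]
      simp [bialtP, hroot]
    · have hi : ¬ ((finSumFinEquiv (Sum.inr i) : Fin (n + r)) : ℕ) < n := by simp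
      rw [Matrix.submatrix_apply, hbot _ _ hi, Matrix.fromBlocks_apply₂₁]
      simp
    · have hi : ¬ ((finSumFinEquiv (Sum.inr i) : Fin (n + r)) : ℕ) < n := by simp
      rw [Matrix.submatrix_apply, hbot _ _ hi, Matrix.fromBlocks_apply₂₂]
      simp [bialtP, coeff_X_pow_mul']
  rw [hblk, Matrix.det_fromBlocks_zero₁₂]



theorem e7sign (n a r : ℕ) (ha : a ≤ n) :
    (∏ j : Fin n, ((-1 : ℝ)) ^ (E a r j)) = (∏ j : Fin n, ((-1 : ℝ)) ^ (j : ℕ)) * (-1) ^ (r * (n - a)) := by
  have h1 : ∀ j : Fin n, ((-1 : ℝ)) ^ (E a r j) =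
      (-1) ^ (j : ℕ) * (if (j : ℕ) < a then 1 else (-1) ^ r) := by
    intro j
    unfold E
    split_ifs
    · rw [mul_one]
    · rw [pow_add]
  rw [Finset.prod_congr rfl (fun j _ => h1 j), Finset.prod_mul_distrib]
  congr 1
  rw [Finset.prod_ite, Finset.prod_const_one, one_mul, Finset.prod_const, ← pow_mul]
  congr 2
  have h2 : (Finset.univ.filter (fun j : Fin n => ¬ (j : ℕ) < a)).card = n - a := by
    have h3 : (Finset.univ.filter (fun j : Fin n => ¬ (j : ℕ) < a)).map Fin.valEmbedding =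
        Finset.Ico a n := by
      ext k
      simp only [Finset.mem_map, Finset.mem_filter, Finset.mem_univ, true_and, Finset.mem_Ico,
        Fin.valEmbedding_apply]
      constructor
      · rintro ⟨j, hj, rfl⟩
        exact ⟨by omega, j.2⟩
      · rintro ⟨h, h'⟩
        exact ⟨⟨k, h'⟩, by simpa using h, rfl⟩
    rw [← Finset.card_map Fin.valEmbedding, h3, Nat.card_Ico]
  exact h2

theorem T_mul_vandermonde_of (n a r : ℕ) (ha : a ≤ n) (y : Fin n → ℝ)
    (bialt : ∀ z : Fin n → ℝ, (-1)^(r*(n-a)) * (Matrix.of fun (i j : Fin n) => z i ^ E a r j).det =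
      (Matrix.vandermonde z).det * (Matrix.of fun i j : Fin r =>
        if (j:ℕ) ≤ a + (i:ℕ) then (∏ i, (X - C (z i))).coeff (a + i - j) else 0).det) :
    T (coefZ (∏ i, (X + C (y i)))) r a * (Matrix.vandermonde y).det = D n a r y := by
  have h := bialt (fun i => - y i)
  have hX : (∏ i, (X - C (-y i))) = ∏ i, (X + C (y i)) := by
    apply Finset.prod_congr rfl
    intro i _
    rw [C_neg, sub_neg_eq_add]
  rw [hX] at h
  have h1 : (Matrix.of fun (i j : Fin n) => (-y i) ^ E a r j).det =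
      (∏ j : Fin n, ((-1 : ℝ)) ^ (E a r j)) * D n a r y := by
    unfold D
    rw [← Matrix.det_mul_row]
    congr 1
    ext i j
    simp only [Matrix.of_apply]
    rw [← mul_pow, neg_one_mul]
  have h2 : (Matrix.vandermonde (fun i => - y i)).det =
      (∏ j : Fin n, ((-1 : ℝ)) ^ (j : ℕ)) * (Matrix.vandermonde y).det := by
    rw [← Matrix.det_mul_row]
    congr 1
    ext i j
    simp only [Matrix.of_apply, Matrix.vandermonde_apply]
    rw [← mul_pow, neg_one_mul]
  have h3 : T (coefZ (∏ i, (X + C (y i)))) r a = (Matrix.of fun i j : Fin r =>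
        if (j:ℕ) ≤ a + (i:ℕ) then (∏ i, (X + C (y i))).coeff (a + i - j) else 0).det := by
    unfold T coefZ
    rw [← Matrix.det_transpose]
    congr 1
    ext i j
    simp only [Matrix.of_apply, Matrix.transpose_apply]
    by_cases hij : (j : ℕ) ≤ a + (i : ℕ)
    · rw [if_pos hij, if_pos (by omega)]
      congr 1
      omega
    · rw [if_neg hij, if_neg (by omega)]
  rw [h1, h2, e7sign n a r ha, ← h3] at h
  have hs : ((-1 : ℝ)) ^ (r * (n - a)) * (-1) ^ (r * (n - a)) = 1 := by
    rw [← mul_pow]; simp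
  have hp : (∏ j : Fin n, ((-1 : ℝ)) ^ (j : ℕ)) ≠ 0 :=
    Finset.prod_ne_zero_iff.mpr (fun j _ => pow_ne_zero _ (by norm_num))
  have h4 : (∏ j : Fin n, ((-1 : ℝ)) ^ (j : ℕ)) * D n a r y =
      (∏ j : Fin n, ((-1 : ℝ)) ^ (j : ℕ)) *
        (T (coefZ (∏ i, (X + C (y i)))) r a * (Matrix.vandermonde y).det) := by
    calc (∏ j : Fin n, ((-1 : ℝ)) ^ (j : ℕ)) * D n a r y
        = ((-1 : ℝ) ^ (r * (n - a)) * (-1) ^ (r * (n - a))) *
          ((∏ j : Fin n, ((-1 : ℝ)) ^ (j : ℕ)) * D n a r y) := by rw [hs, one_mul]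
      _ = (-1) ^ (r * (n - a)) * (((∏ j : Fin n, ((-1 : ℝ)) ^ (j : ℕ)) *
          (-1) ^ (r * (n - a))) * D n a r y) := by ring
      _ = _ := by rw [h]; ring
  exact (mul_left_cancel₀ hp h4).symm


end Pool.Agent.Helper80.Fisk
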