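import Pool.Agent.Helper80.Fisk.Alg
set_option autoImplicit false
namespace Pool.Agent.Helper80.Fisk
open Polynomial MeasureTheory


theorem E_zero_7178 (a r : ℕ) : E (a+1) r 0 = 0 := by simp [E]

theorem E_succ_7178 (a r j : ℕ) : E (a+1) r (j+1) = E a r j + 1 := by
  unfold E
  split_ifs <;> omega

theorem rowdiff_7178 {n : ℕ} (M : Matrix (Fin (n+1)) (Fin (n+1)) ℝ) (h0 : ∀ i, M i 0 = 1) :
    M.det = (Matrix.of fun i j : Fin n => M i.succ j.succ - M i.castSucc j.succ).det := by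
  let B : Matrix (Fin (n+1)) (Fin (n+1)) ℝ := Matrix.of fun i j =>
    Fin.cases (M 0 j) (fun i => M i.succ j - M i.castSucc j) i
  have h1 : M.det = B.det := by
    refine Matrix.det_eq_of_forall_row_eq_smul_add_pred (fun _ => 1) ?_ ?_
    · intro j; rfl
    · intro i j
      simp [B]
  rw [h1, Matrix.det_succ_column_zero, Finset.sum_eq_single 0]
  · simp only [Fin.val_zero, pow_zero, one_mul]
    have hB : B 0 0 = 1 := h0 0
    rw [hB, one_mul]
    congr 1
  · intro i _ hi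
    obtain ⟨k, rfl⟩ := Fin.exists_succ_eq.2 hi
    have hB : B k.succ 0 = 0 := by
      simp [B, h0]
    rw [hB]
    simp
  · intro h; exact absurd (Finset.mem_univ _) h

theorem det_int_7178 {n : ℕ} (e : Fin n → ℕ) (l u : Fin n → ℝ) :
    (Matrix.of fun i j : Fin n => ∫ t in Set.Ioc (l i) (u i), t ^ e j).det =
      ∫ y in Set.univ.pi (fun i : Fin n => Set.Ioc (l i) (u i)),
        (Matrix.of fun i j : Fin n => y i ^ e j).det := by
  have hint : ∀ i : Fin n, ∀ m : ℕ, Integrable (fun t : ℝ => t ^ m)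
      (volume.restrict (Set.Ioc (l i) (u i))) := fun i m =>
    ((continuous_pow m).integrableOn_Ioc)
  have hr : (volume : Measure (Fin n → ℝ)).restrict (Set.univ.pi fun i => Set.Ioc (l i) (u i)) =
      Measure.pi (fun i => (volume : Measure ℝ).restrict (Set.Ioc (l i) (u i))) := by
    rw [volume_pi, Measure.restrict_pi_pi]
  rw [hr]
  have h1 : ∀ y : Fin n → ℝ, (Matrix.of fun i j : Fin n => y i ^ e j).det =
      ∑ σ : Equiv.Perm (Fin n), ((Equiv.Perm.sign σ : ℤ) : ℝ) * ∏ i, y i ^ e (σ i) := by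
    intro y
    rw [← Matrix.det_transpose, Matrix.det_apply']
    rfl
  simp_rw [h1]
  rw [integral_finset_sum]
  · rw [← Matrix.det_transpose, Matrix.det_apply']
    refine Finset.sum_congr rfl fun σ _ => ?_
    rw [integral_const_mul, integral_fintype_prod_eq_prod (fun i t => t ^ e (σ i))]
    rfl
  · intro σ _
    refine Integrable.const_mul ?_ _
    exact Integrable.fintype_prod (fun i => hint i (e (σ i)))

theorem branching (n a r : ℕ) (x : Fin (n+1) → ℝ) (hx : Monotone x) :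
    D (n+1) (a+1) r x = (∏ j : Fin n, ((E a r j : ℝ) + 1)) *
      ∫ y in Set.univ.pi (fun i : Fin n => Set.Ioc (x i.castSucc) (x i.succ)), D n a r y := by
  unfold D
  rw [rowdiff_7178 _ (fun i => by simp [E_zero_7178]), ← det_int_7178, ← Matrix.det_mul_row]
  congr 1
  ext i j
  simp only [Matrix.of_apply, Fin.val_succ, E_succ_7178]
  have h := hx (Fin.castSucc_le_succ i)
  rw [← intervalIntegral.integral_of_le h, integral_pow]
  have : ((E a r j : ℝ) + 1) ≠ 0 := by positivity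
  field_simp


theorem cs_const {n : ℕ} (S : Set (Fin n → ℝ)) (hS : MeasurableSet S) (f g h : (Fin n → ℝ) → ℝ)
    (hf : IntegrableOn f S) (hg : IntegrableOn g S) (hh : IntegrableOn h S) (κ μ : ℝ)
    (hκ : 0 ≤ κ) (hμ : 0 ≤ μ) (f0 : ∀ y ∈ S, 0 ≤ f y) (h0 : ∀ y ∈ S, 0 ≤ h y)
    (H : ∀ y ∈ S, κ * g y ^ 2 ≤ μ * f y * h y) :
    κ * (∫ y in S, g y) ^ 2 ≤ μ * (∫ y in S, f y) * (∫ y in S, h y) := by
  have hpt : ∀ t : ℝ, ∀ y ∈ S, 0 ≤ Real.sqrt μ * (t * t) * f y + (-2 * Real.sqrt κ * t) * g y +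
      Real.sqrt μ * h y := by
    intro t y hy
    have hH := H y hy
    have hf0 := f0 y hy
    have hh0 := h0 y hy
    have hsμ := Real.sq_sqrt hμ
    have hsκ := Real.sq_sqrt hκ
    have hμ0 := Real.sqrt_nonneg μ
    have hκ0 := Real.sqrt_nonneg κ
    generalize f y = a at *
    generalize g y = b at *
    generalize h y = c at *
    set m := Real.sqrt μ
    set k := Real.sqrt κ
    have hA : 0 ≤ m * a := mul_nonneg hμ0 hf0
    have hC : 0 ≤ m * c := mul_nonneg hμ0 hh0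
    have hB : (k * b) ^ 2 ≤ (m * a) * (m * c) := by
      calc (k * b) ^ 2 = k ^ 2 * b ^ 2 := by ring
        _ = κ * b ^ 2 := by rw [hsκ]
        _ ≤ μ * a * c := hH
        _ = m ^ 2 * a * c := by rw [hsμ]
        _ = (m * a) * (m * c) := by ring
    have hgoal : m * (t * t) * a + (-2 * k * t) * b + m * c =
        (m * a) * t ^ 2 - 2 * (k * b) * t + m * c := by ring
    rw [hgoal]
    generalize m * a = A at *
    generalize m * c = C at *
    generalize k * b = B at *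
    rcases hA.eq_or_lt with h1 | h1
    · rw [← h1, zero_mul] at hB
      have hB0 : B = 0 := by nlinarith
      rw [← h1, hB0]
      linarith
    · have h2 : 0 ≤ A * (A * t ^ 2 - 2 * B * t + C) := by
        have h3 : A * (A * t ^ 2 - 2 * B * t + C) = (A * t - B) ^ 2 + (A * C - B ^ 2) := by ring
        rw [h3]
        have := sq_nonneg (A * t - B)
        linarith
      exact nonneg_of_mul_nonneg_right h2 h1
  have hint : ∀ t : ℝ, 0 ≤ (Real.sqrt μ * ∫ y in S, f y) * (t * t) +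
      (-2 * Real.sqrt κ * ∫ y in S, g y) * t + Real.sqrt μ * ∫ y in S, h y := by
    intro t
    have h1 : 0 ≤ ∫ y in S, (Real.sqrt μ * (t * t) * f y + (-2 * Real.sqrt κ * t) * g y +
      Real.sqrt μ * h y) := setIntegral_nonneg hS (hpt t)
    have i1 : IntegrableOn (fun y => Real.sqrt μ * (t * t) * f y) S := hf.const_mul _
    have i2 : IntegrableOn (fun y => (-2 * Real.sqrt κ * t) * g y) S := hg.const_mul _
    have i3 : IntegrableOn (fun y => Real.sqrt μ * h y) S := hh.const_mul _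
    have e1 : ∫ y in S, (Real.sqrt μ * (t * t) * f y + (-2 * Real.sqrt κ * t) * g y +
      Real.sqrt μ * h y) = (∫ y in S, (Real.sqrt μ * (t * t) * f y + (-2 * Real.sqrt κ * t) * g y)) +
      ∫ y in S, Real.sqrt μ * h y := integral_add (i1.add i2) i3
    have e2 : ∫ y in S, (Real.sqrt μ * (t * t) * f y + (-2 * Real.sqrt κ * t) * g y) =
      (∫ y in S, Real.sqrt μ * (t * t) * f y) + ∫ y in S, (-2 * Real.sqrt κ * t) * g y :=
      integral_add i1 i2
    rw [e1, e2, integral_const_mul, integral_const_mul, integral_const_mul] at h1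
    refine h1.trans (le_of_eq ?_)
    ring
  have hd := discrim_le_zero hint
  unfold discrim at hd
  have hsμ := Real.sq_sqrt hμ
  have hsκ := Real.sq_sqrt hκ
  have e : (-2 * Real.sqrt κ * ∫ y in S, g y) ^ 2 -
      4 * (Real.sqrt μ * ∫ y in S, f y) * (Real.sqrt μ * ∫ y in S, h y) =
      4 * (Real.sqrt κ ^ 2 * (∫ y in S, g y) ^ 2) -
      4 * (Real.sqrt μ ^ 2 * (∫ y in S, f y) * (∫ y in S, h y)) := by ring
  rw [e, hsμ, hsκ] at hd
  linarith


theorem D_ineq_base (k : ℕ) (r : ℕ) (x : Fin k → ℝ) :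
    D k 0 r x = (∏ i, x i) ^ r * (Matrix.vandermonde x).det := by
  unfold D
  have e : (Matrix.of fun i j : Fin k => x i ^ E 0 r j) =
      Matrix.of fun i j : Fin k => (x i ^ r) * Matrix.vandermonde x i j := by
    ext i j
    simp only [Matrix.of_apply, Matrix.vandermonde_apply, E, Nat.not_lt_zero, if_false]
    rw [pow_add, mul_comm]
  rw [e, Matrix.det_mul_column, Finset.prod_pow]

theorem D_ineq_vdm (k : ℕ) (x : Fin k → ℝ) (hx : Monotone x) :
    0 ≤ (Matrix.vandermonde x).det := by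
  rw [Matrix.det_vandermonde]
  apply Finset.prod_nonneg
  intro i _
  apply Finset.prod_nonneg
  intro j hj
  rw [Finset.mem_Ioi] at hj
  exact sub_nonneg.mpr (hx hj.le)

theorem D_ineq_cont (n a r : ℕ) : Continuous (fun y : Fin n → ℝ => D n a r y) := by
  unfold D
  apply Continuous.matrix_det
  apply continuous_matrix
  intro i j
  simp only [Matrix.of_apply]
  exact (continuous_apply i).pow _

theorem D_ineq_const (k a r : ℕ) :
    (∏ j : Fin (k+a), ((E a (r+1) j : ℝ) + 1)) * ((a:ℝ) + r + 1) =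
    (∏ j : Fin (k+a), ((E a r j : ℝ) + 1)) * ((k:ℝ) + a + r + 1) := by
  have h : ∀ s : ℕ, (∏ j : Fin (k+a), ((E a s j : ℝ) + 1)) =
      (∏ j ∈ Finset.range a, ((j:ℝ) + 1)) * ∏ j ∈ Finset.range k, ((a:ℝ) + j + s + 1) := by
    intro s
    rw [Finset.prod_fin_eq_prod_range
      (fun j : Fin (k+a) => ((E a s j : ℝ) + 1))]
    rw [add_comm k a, Finset.prod_range_add]
    congr 1
    · apply Finset.prod_congr rfl
      intro j hj
      rw [Finset.mem_range] at hj
      rw [dif_pos (by omega)]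
      simp [E, hj]
    · apply Finset.prod_congr rfl
      intro j hj
      rw [Finset.mem_range] at hj
      rw [dif_pos (by omega)]
      simp [E]
  rw [h, h]
  have h2 : ∀ k : ℕ, (∏ j ∈ Finset.range k, ((a:ℝ) + j + (r+1:ℕ) + 1)) * ((a:ℝ) + r + 1) =
      (∏ j ∈ Finset.range k, ((a:ℝ) + j + r + 1)) * ((k:ℝ) + a + r + 1) := by
    intro k
    induction k with
    | zero => simp
    | succ k ih =>
      rw [Finset.prod_range_succ, Finset.prod_range_succ]
      push_cast at ih ⊢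
      linear_combination ((a:ℝ) + k + (r+1) + 1) * ih
  rw [mul_assoc, h2, mul_assoc]

theorem D_ineq_of
    (branching : ∀ (n a r : ℕ) (x : Fin (n+1) → ℝ), Monotone x →
      D (n+1) (a+1) r x = (∏ j : Fin n, ((E a r j : ℝ) + 1)) *
      ∫ y in Set.univ.pi (fun i : Fin n => Set.Ioc (x i.castSucc) (x i.succ)), D n a r y)
    (cs_const : ∀ (n : ℕ) (S : Set (Fin n → ℝ)), MeasurableSet S → ∀ (f g h : (Fin n → ℝ) → ℝ),
      IntegrableOn f S → IntegrableOn g S → IntegrableOn h S → ∀ (κ μ : ℝ), 0 ≤ κ → 0 ≤ μ →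
      (∀ y ∈ S, 0 ≤ f y) → (∀ y ∈ S, 0 ≤ h y) → (∀ y ∈ S, κ * g y ^ 2 ≤ μ * f y * h y) →
      κ * (∫ y in S, g y) ^ 2 ≤ μ * (∫ y in S, f y) * (∫ y in S, h y))
    (k a : ℕ) : ∀ r, ∀ x : Fin (k+a) → ℝ, Monotone x → (∀ i, 0 ≤ x i) →
    0 ≤ D (k+a) a r x ∧
    ((r:ℝ)+1)*(r+1+k+a) * (D (k+a) a (r+1) x)^2 ≤
      (r+1+k)*(r+1+a) * D (k+a) a r x * D (k+a) a (r+2) x := by
  induction a with
  | zero =>
    intro r x hx h0
    change 0 ≤ D k 0 r x ∧ ((r:ℝ)+1)*(r+1+k+(0:ℕ)) * (D k 0 (r+1) x)^2 ≤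
      (r+1+k)*(r+1+(0:ℕ)) * D k 0 r x * D k 0 (r+2) x
    have hP : 0 ≤ ∏ i : Fin k, x i := Finset.prod_nonneg fun i _ => h0 i
    have hV := D_ineq_vdm k x hx
    rw [D_ineq_base, D_ineq_base, D_ineq_base]
    refine ⟨by positivity, le_of_eq ?_⟩
    push_cast
    ring
  | succ a ih =>
    intro r x hx h0
    have hx' : Monotone (x : Fin (k+a+1) → ℝ) := hx
    have hpos : ∀ s : ℕ, (0:ℝ) < ∏ j : Fin (k+a), ((E a s j : ℝ) + 1) := by
      intro s
      apply Finset.prod_pos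
      intro j _
      positivity
    have hmem : ∀ y ∈ Set.univ.pi (fun i : Fin (k+a) => Set.Ioc
        ((x : Fin (k+a+1) → ℝ) i.castSucc) ((x : Fin (k+a+1) → ℝ) i.succ)),
        Monotone y ∧ ∀ i, 0 ≤ y i := by
      intro y hy
      have hy' : ∀ i, y i ∈ Set.Ioc
        ((x : Fin (k+a+1) → ℝ) i.castSucc) ((x : Fin (k+a+1) → ℝ) i.succ) :=
        fun i => hy i (Set.mem_univ i)
      constructor
      · intro i j hij
        rcases eq_or_lt_of_le hij with h | h
        · rw [h]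
        · have h1 := (hy' i).2
          have h2 := (hy' j).1
          have h3 : (x : Fin (k+a+1) → ℝ) i.succ ≤ (x : Fin (k+a+1) → ℝ) j.castSucc := by
            apply hx'
            rw [Fin.le_def, Fin.val_succ, Fin.val_castSucc]
            exact h
          exact (h1.trans h3).trans h2.le
      · intro i
        have h2 := (hy' i).1
        have h3 := h0 (i.castSucc : Fin (k+a+1))
        exact h3.trans h2.le
    have hS : MeasurableSet (Set.univ.pi (fun i : Fin (k+a) => Set.Ioc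
        ((x : Fin (k+a+1) → ℝ) i.castSucc) ((x : Fin (k+a+1) → ℝ) i.succ))) :=
      MeasurableSet.univ_pi fun i => measurableSet_Ioc
    have hint : ∀ s : ℕ, IntegrableOn (fun y : Fin (k+a) → ℝ => D (k+a) a s y)
        (Set.univ.pi (fun i : Fin (k+a) => Set.Ioc
        ((x : Fin (k+a+1) → ℝ) i.castSucc) ((x : Fin (k+a+1) → ℝ) i.succ))) := by
      intro s
      have hK : IsCompact (Set.univ.pi (fun i : Fin (k+a) => Set.Icc
        ((x : Fin (k+a+1) → ℝ) i.castSucc) ((x : Fin (k+a+1) → ℝ) i.succ))) :=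
        isCompact_univ_pi fun i => isCompact_Icc
      have h1 := ContinuousOn.integrableOn_compact (μ := volume) hK
        (D_ineq_cont (k+a) a s).continuousOn
      exact h1.mono_set (Set.pi_mono fun i _ => Set.Ioc_subset_Icc_self)
    have b0 : D (k+(a+1)) (a+1) r x = _ := branching (k+a) a r x hx'
    have b1 : D (k+(a+1)) (a+1) (r+1) x = _ := branching (k+a) a (r+1) x hx'
    have b2 : D (k+(a+1)) (a+1) (r+2) x = _ := branching (k+a) a (r+2) x hx'
    have hcs := cs_const (k+a) _ hS (fun y => D (k+a) a r y) (fun y => D (k+a) a (r+1) y)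
      (fun y => D (k+a) a (r+2) y) (hint r) (hint (r+1)) (hint (r+2))
      (((r:ℝ)+1)*(r+1+k+a)) ((r+1+k)*(r+1+a)) (by positivity) (by positivity)
      (fun y hy => (ih r y (hmem y hy).1 (hmem y hy).2).1)
      (fun y hy => (ih (r+2) y (hmem y hy).1 (hmem y hy).2).1)
      (fun y hy => (ih r y (hmem y hy).1 (hmem y hy).2).2)
    have hF : ∀ s : ℕ, 0 ≤ ∫ y in (Set.univ.pi (fun i : Fin (k+a) => Set.Ioc
        ((x : Fin (k+a+1) → ℝ) i.castSucc) ((x : Fin (k+a+1) → ℝ) i.succ))), D (k+a) a s y :=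
      fun s => setIntegral_nonneg hS fun y hy => (ih s y (hmem y hy).1 (hmem y hy).2).1
    refine ⟨?_, ?_⟩
    · rw [b0]
      exact mul_nonneg (hpos r).le (hF r)
    · rw [b0, b1, b2]
      have k1 := D_ineq_const k a r
      have k2 := D_ineq_const k a (r+1)
      have p1 := hpos (r+1)
      generalize (∏ j : Fin (k+a), ((E a r j : ℝ) + 1)) = c0 at *
      generalize (∏ j : Fin (k+a), ((E a (r+1) j : ℝ) + 1)) = c1 at *
      generalize (∏ j : Fin (k+a), ((E a (r+1+1) j : ℝ) + 1)) = c2 at *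
      generalize (∫ y in (Set.univ.pi (fun i : Fin (k+a) => Set.Ioc
        ((x : Fin (k+a+1) → ℝ) i.castSucc) ((x : Fin (k+a+1) → ℝ) i.succ))), D (k+a) a r y) = F
        at *
      generalize (∫ y in (Set.univ.pi (fun i : Fin (k+a) => Set.Ioc
        ((x : Fin (k+a+1) → ℝ) i.castSucc) ((x : Fin (k+a+1) → ℝ) i.succ))), D (k+a) a (r+1) y)
        = G at *
      generalize (∫ y in (Set.univ.pi (fun i : Fin (k+a) => Set.Ioc
        ((x : Fin (k+a+1) → ℝ) i.castSucc) ((x : Fin (k+a+1) → ℝ) i.succ))), D (k+a) a (r+2) y)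
        = H at *
      push_cast at *
      have hm : (0:ℝ) < (k:ℝ) + a + r + 1 := by positivity
      have hfac : 0 ≤ c1 ^ 2 * ((k:ℝ) + a + r + 2) := by positivity
      have h1 := mul_le_mul_of_nonneg_left hcs hfac
      apply le_of_mul_le_mul_right _ hm
      have eL : ((r:ℝ)+1)*(r+1+k+(a+1)) * (c1 * G)^2 * ((k:ℝ) + a + r + 1) =
        c1 ^ 2 * ((k:ℝ) + a + r + 2) * (((r:ℝ)+1)*(r+1+k+a) * G^2) := by ring
      have eR : ((r:ℝ)+1+k)*(r+1+(a+1)) * (c0 * F) * (c2 * H) * ((k:ℝ) + a + r + 1) =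
        c1 ^ 2 * ((k:ℝ) + a + r + 2) * (((r:ℝ)+1+k)*(r+1+a) * F * H) := by
        have e1 : ((r:ℝ)+1+k)*(r+1+(a+1)) * (c0 * F) * (c2 * H) * ((k:ℝ) + a + r + 1) =
          (c0 * ((k:ℝ) + a + r + 1)) * (c2 * (a + (r + 1) + 1)) * (((r:ℝ)+1+k) * F * H) := by ring
        rw [e1, ← k1, k2]
        ring
      rw [eL, eR]
      exact h1



theorem coeff_cont {n : ℕ} (g : Fin n → ℝ → ℝ) (hg : ∀ i, Continuous (g i)) (s : Finset (Fin n)) :
    ∀ m : ℕ, Continuous (fun e : ℝ => (∏ i ∈ s, (X + C (g i e)) : ℝ[X]).coeff m) := by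
  classical
  induction s using Finset.induction_on with
  | empty =>
    intro m
    simp only [Finset.prod_empty]
    exact continuous_const
  | insert i s hi ih =>
    intro m
    simp only [Finset.prod_insert hi, add_mul, coeff_add, coeff_C_mul]
    refine Continuous.add ?_ ((hg i).mul (ih m))
    cases m with
    | zero =>
      simp only [coeff_X_mul_zero]
      exact continuous_const
    | succ m =>
      simp only [coeff_X_mul]
      exact ih m

theorem T_cont {n : ℕ} (g : Fin n → ℝ → ℝ) (hg : ∀ i, Continuous (g i)) (r : ℕ) (k : ℤ) :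
    Continuous (fun e : ℝ => T (coefZ (∏ i, (X + C (g i e)) : ℝ[X])) r k) := by
  unfold T
  refine Continuous.matrix_det (continuous_matrix fun i j => ?_)
  simp only [Matrix.of_apply]
  unfold coefZ
  split_ifs
  · exact coeff_cont g hg _ _
  · exact continuous_const

theorem T_ineq_strict (n a r : ℕ)
    (T_mul_vandermonde : ∀ (r : ℕ) (y : Fin n → ℝ),
      T (coefZ (∏ i, (X + C (y i)))) r a * (Matrix.vandermonde y).det = D n a r y)
    (D_ineq : ∀ x : Fin n → ℝ, Monotone x → (∀ i, 0 ≤ x i) →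
      ((r:ℝ)+1)*(r+1+n) * (D n a (r+1) x)^2 ≤
      (r+1+(n-a))*(r+1+a) * D n a r x * D n a (r+2) x)
    (y : Fin n → ℝ) (hy : StrictMono y) (hy0 : ∀ i, 0 ≤ y i) :
    ((r:ℝ)+1)*(r+1+n) * (T (coefZ (∏ i, (X + C (y i)))) (r+1) a)^2 ≤
      (r+1+(n-a))*(r+1+a) * T (coefZ (∏ i, (X + C (y i)))) r a *
        T (coefZ (∏ i, (X + C (y i)))) (r+2) a := by
  have hV : 0 < (Matrix.vandermonde y).det := by
    rw [Matrix.det_vandermonde]
    refine Finset.prod_pos fun i _ => Finset.prod_pos fun j hj => ?_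
    rw [Finset.mem_Ioi] at hj
    exact sub_pos.2 (hy hj)
  have h := D_ineq y hy.monotone hy0
  rw [← T_mul_vandermonde, ← T_mul_vandermonde, ← T_mul_vandermonde] at h
  have hV2 : 0 < (Matrix.vandermonde y).det ^ 2 := by positivity
  refine le_of_mul_le_mul_right ?_ hV2
  linarith

theorem T_ineq_of (n a r : ℕ) (ha : a ≤ n)
    (T_mul_vandermonde : ∀ (r : ℕ) (y : Fin n → ℝ),
      T (coefZ (∏ i, (X + C (y i)))) r a * (Matrix.vandermonde y).det = D n a r y)
    (D_ineq : ∀ x : Fin n → ℝ, Monotone x → (∀ i, 0 ≤ x i) →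
      ((r:ℝ)+1)*(r+1+n) * (D n a (r+1) x)^2 ≤
      (r+1+(n-a))*(r+1+a) * D n a r x * D n a (r+2) x)
    (y : Fin n → ℝ) (hy : Monotone y) (hy0 : ∀ i, 0 ≤ y i) :
    ((r:ℝ)+1)*(r+1+n) * (T (coefZ (∏ i, (X + C (y i)))) (r+1) a)^2 ≤
      (r+1+(n-a))*(r+1+a) * T (coefZ (∏ i, (X + C (y i)))) r a *
        T (coefZ (∏ i, (X + C (y i)))) (r+2) a := by
  have hg : ∀ i : Fin n, Continuous (fun e : ℝ => y i + e * (i : ℕ)) := fun i => by fun_prop
  have hT : ∀ s : ℕ, Continuous (fun e : ℝ =>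
      T (coefZ (∏ i : Fin n, (X + C (y i + e * (i : ℕ))) : ℝ[X])) s a) :=
    fun s => T_cont (fun (i : Fin n) (e : ℝ) => y i + e * (i : ℕ)) hg s a
  have hL : Continuous (fun e : ℝ => ((r:ℝ)+1)*(r+1+n) *
      (T (coefZ (∏ i : Fin n, (X + C (y i + e * (i : ℕ))) : ℝ[X])) (r+1) a)^2) :=
    continuous_const.mul ((hT (r + 1)).pow 2)
  have hR : Continuous (fun e : ℝ => ((r:ℝ)+1+(n-a))*(r+1+a) *
      T (coefZ (∏ i : Fin n, (X + C (y i + e * (i : ℕ))) : ℝ[X])) r a *
      T (coefZ (∏ i : Fin n, (X + C (y i + e * (i : ℕ))) : ℝ[X])) (r+2) a) :=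
    (continuous_const.mul (hT r)).mul (hT (r + 2))
  have hle : ∀ e : ℝ, 0 < e → ((r:ℝ)+1)*(r+1+n) *
      (T (coefZ (∏ i : Fin n, (X + C (y i + e * (i : ℕ))) : ℝ[X])) (r+1) a)^2 ≤
      ((r:ℝ)+1+(n-a))*(r+1+a) *
      T (coefZ (∏ i : Fin n, (X + C (y i + e * (i : ℕ))) : ℝ[X])) r a *
      T (coefZ (∏ i : Fin n, (X + C (y i + e * (i : ℕ))) : ℝ[X])) (r+2) a := by
    intro e he
    refine T_ineq_strict n a r T_mul_vandermonde D_ineq (fun i => y i + e * (i : ℕ)) ?_ ?_
    · intro i j hij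
      have h1 : y i ≤ y j := hy hij.le
      have h2 : ((i : ℕ) : ℝ) < ((j : ℕ) : ℝ) := by exact_mod_cast hij
      have h3 : e * (i : ℕ) < e * (j : ℕ) := mul_lt_mul_of_pos_left h2 he
      show y i + e * (i : ℕ) < y j + e * (j : ℕ)
      linarith
    · intro i
      have := hy0 i
      show 0 ≤ y i + e * (i : ℕ)
      positivity
  have hL0 := (hL.tendsto 0).mono_left (nhdsWithin_le_nhds (s := Set.Ioi (0 : ℝ)))
  have hR0 := (hR.tendsto 0).mono_left (nhdsWithin_le_nhds (s := Set.Ioi (0 : ℝ)))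
  have h := le_of_tendsto_of_tendsto hL0 hR0 (eventually_nhdsWithin_of_forall fun e he => hle e he)
  simpa only [zero_mul, add_zero] using h


end Pool.Agent.Helper80.Fisk
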