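import Pool.Agent.Helper80.Fisk.Ana
set_option autoImplicit false
namespace Pool.Agent.Helper80.Fisk
open Polynomial MeasureTheory

theorem bialt {R : Type*} [CommRing R] (n a r : ℕ) (ha : a ≤ n) (z : Fin n → R) :
    (-1)^(r*(n-a)) * (Matrix.of fun (i j : Fin n) => z i ^ E a r j).det =
      (Matrix.vandermonde z).det * (Matrix.of fun i j : Fin r =>
        if (j:ℕ) ≤ a + (i:ℕ) then (∏ i, (X - C (z i))).coeff (a + i - j) else 0).det :=
  bialt_of n a r ha z (det_select n a ha r)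

theorem T_mul_vandermonde (n a r : ℕ) (ha : a ≤ n) (y : Fin n → ℝ) :
    T (coefZ (∏ i, (X + C (y i)))) r a * (Matrix.vandermonde y).det = D n a r y :=
  T_mul_vandermonde_of n a r ha y (bialt n a r ha)

theorem D_ineq (k a : ℕ) : ∀ r, ∀ x : Fin (k+a) → ℝ, Monotone x → (∀ i, 0 ≤ x i) →
    0 ≤ D (k+a) a r x ∧
    ((r:ℝ)+1)*(r+1+k+a) * (D (k+a) a (r+1) x)^2 ≤
      (r+1+k)*(r+1+a) * D (k+a) a r x * D (k+a) a (r+2) x :=
  D_ineq_of branching (fun n S hS f g h hf hg hh κ μ hκ hμ f0 h0 H =>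
    cs_const S hS f g h hf hg hh κ μ hκ hμ f0 h0 H) k a

theorem T_ineq (n a r : ℕ) (ha : a ≤ n) (y : Fin n → ℝ) (hy : Monotone y) (hy0 : ∀ i, 0 ≤ y i) :
    ((r:ℝ)+1)*(r+1+n) * (T (coefZ (∏ i, (X + C (y i)))) (r+1) a)^2 ≤
      (r+1+(n-a))*(r+1+a) * T (coefZ (∏ i, (X + C (y i)))) r a *
        T (coefZ (∏ i, (X + C (y i)))) (r+2) a := by
  obtain ⟨k, rfl⟩ : ∃ k, n = k + a := ⟨n - a, by omega⟩
  refine T_ineq_of (k+a) a r ha (fun r y => T_mul_vandermonde (k+a) a r ha y) ?_ y hy hy0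
  intro x hx hx0
  have h := (D_ineq k a r x hx hx0).2
  push_cast
  have e1 : ((r:ℝ)+1)*(r+1+(k+a)) = (r+1)*(r+1+k+a) := by ring
  have e2 : ((r:ℝ)+1+((k:ℝ)+a-a)) = r+1+k := by ring
  rw [e1, e2]; exact h


theorem kz_low (t : ℕ → ℝ) (k : ℕ) (hpos : ∀ j ≤ k, 0 < t j) (hinc : ∀ j, j < k → t j < t (j + 1)) :
    ∀ m ≤ k, 0 < (-1 : ℝ) ^ m * ∑ j ∈ Finset.range (m + 1), (-1 : ℝ) ^ j * t j ∧
      (-1 : ℝ) ^ m * ∑ j ∈ Finset.range (m + 1), (-1 : ℝ) ^ j * t j ≤ t m ∧
      (1 ≤ m → (-1 : ℝ) ^ m * ∑ j ∈ Finset.range (m + 1), (-1 : ℝ) ^ j * t j < t m) := by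
  intro m
  induction m with
  | zero =>
    intro _
    simpa using hpos 0 (Nat.zero_le _)
  | succ m ih =>
    intro hm
    obtain ⟨h1, h2, _⟩ := ih (by omega)
    have h3 : (-1 : ℝ) ^ (m + 1) * (-1 : ℝ) ^ (m + 1) = 1 := by rw [← mul_pow]; norm_num
    have h4 : (-1 : ℝ) ^ (m + 1) = -(-1) ^ m := by rw [pow_succ]; ring
    have e : (-1 : ℝ) ^ (m + 1) * ∑ j ∈ Finset.range (m + 1 + 1), (-1 : ℝ) ^ j * t j
        = t (m + 1) - (-1 : ℝ) ^ m * ∑ j ∈ Finset.range (m + 1), (-1 : ℝ) ^ j * t j := by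
      rw [Finset.sum_range_succ]
      linear_combination (t (m + 1)) * h3
        + (∑ j ∈ Finset.range (m + 1), (-1 : ℝ) ^ j * t j) * h4
    have h5 := hinc m (by omega)
    rw [e]
    refine ⟨by linarith, by linarith, fun _ => by linarith⟩

theorem kz_step (N : ℕ) (a : ℕ → ℝ) : ∑ i ∈ Finset.range (N + 1), (-1 : ℝ) ^ i * a i
    = a 0 - ∑ i ∈ Finset.range N, (-1 : ℝ) ^ i * a (i + 1) := by
  rw [Finset.sum_range_succ']
  have h1 : ∀ i, (-1 : ℝ) ^ (i + 1) * a (i + 1) = -((-1 : ℝ) ^ i * a (i + 1)) := by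
    intro i; rw [pow_succ]; ring
  simp_rw [h1]
  rw [Finset.sum_neg_distrib]
  simp only [pow_zero, one_mul]
  ring

theorem kz_up (N : ℕ) : ∀ (a : ℕ → ℝ), (∀ i, 0 ≤ a i) → (∀ i, a (i + 1) ≤ a i) →
    0 ≤ ∑ i ∈ Finset.range N, (-1 : ℝ) ^ i * a i ∧
      ∑ i ∈ Finset.range N, (-1 : ℝ) ^ i * a i ≤ a 0 := by
  induction N with
  | zero => intro a h0 _; simpa using h0 0
  | succ N ih =>
    intro a h0 h1
    obtain ⟨h2, h3⟩ := ih (fun i => a (i + 1)) (fun i => h0 _) (fun i => h1 _)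
    rw [kz_step]
    have h4 := h1 0
    simp only [zero_add] at h3 h4
    constructor <;> linarith

theorem kz_up' (N : ℕ) (a : ℕ → ℝ) (h0 : ∀ i, 0 ≤ a i) (h1 : ∀ i, a (i + 1) ≤ a i)
    (h2 : a 2 < a 1) : ∑ i ∈ Finset.range (N + 2), (-1 : ℝ) ^ i * a i < a 0 := by
  rw [kz_step (N + 1) a, kz_step N (fun i => a (i + 1))]
  obtain ⟨_, h4⟩ := kz_up N (fun i => a (i + 1 + 1)) (fun i => h0 _) (fun i => h1 _)
  simp only [zero_add, Nat.reduceAdd] at h4 ⊢
  linarith

theorem kz_sign (q : ℝ[X]) (hpos : ∀ k ≤ q.natDegree, 0 < q.coeff k)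
    (h' : ∀ k, 4 * q.coeff k * q.coeff (k + 2) ≤ q.coeff (k + 1) ^ 2) (ρ : ℝ) (hρ : 0 < ρ) (m : ℕ)
    (hm : m + 1 ≤ q.natDegree)
    (hlo : q.coeff m * ρ ^ m < q.coeff (m + 1) * ρ ^ (m + 1))
    (hup : q.coeff (m + 2) * ρ ^ (m + 2) < q.coeff (m + 1) * ρ ^ (m + 1))
    (hs : q.coeff m * ρ ^ m + q.coeff (m + 2) * ρ ^ (m + 2) ≤ q.coeff (m + 1) * ρ ^ (m + 1))
    (hst : 1 ≤ m ∨ m + 3 ≤ q.natDegree ∨
      q.coeff m * ρ ^ m + q.coeff (m + 2) * ρ ^ (m + 2) < q.coeff (m + 1) * ρ ^ (m + 1)) :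
    0 < (-1 : ℝ) ^ (m + 1) * q.eval (-ρ) := by
  obtain ⟨t, ht⟩ : ∃ t : ℕ → ℝ, t = fun j => q.coeff j * ρ ^ j := ⟨_, rfl⟩
  have htj : ∀ j, q.coeff j * ρ ^ j = t j := by intro j; rw [ht]
  rw [htj, htj] at hlo hup
  rw [htj, htj, htj] at hs hst
  have hcz : ∀ j, q.natDegree < j → t j = 0 := by
    intro j hj
    rw [ht]
    simp only
    rw [Polynomial.coeff_eq_zero_of_natDegree_lt hj, zero_mul]
  have tpos : ∀ j ≤ q.natDegree, 0 < t j := by
    intro j hj
    rw [ht]
    exact mul_pos (hpos j hj) (pow_pos hρ j)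
  have tnn : ∀ j, 0 ≤ t j := by
    intro j
    rcases le_or_gt j q.natDegree with h | h
    · exact (tpos j h).le
    · rw [hcz j h]
  have tlc : ∀ j, 4 * t j * t (j + 2) ≤ t (j + 1) ^ 2 := by
    intro j
    rw [ht]
    simp only
    have h1 := mul_le_mul_of_nonneg_right (h' j) (sq_nonneg (ρ ^ (j + 1)))
    calc 4 * (q.coeff j * ρ ^ j) * (q.coeff (j + 2) * ρ ^ (j + 2))
        = 4 * q.coeff j * q.coeff (j + 2) * (ρ ^ (j + 1)) ^ 2 := by ring
      _ ≤ q.coeff (j + 1) ^ 2 * (ρ ^ (j + 1)) ^ 2 := h1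
      _ = (q.coeff (j + 1) * ρ ^ (j + 1)) ^ 2 := by ring
  have hinc0 : ∀ i, ∀ j, j + i = m → t j < t (j + 1) := by
    intro i
    induction i with
    | zero =>
      intro j hj
      rw [add_zero] at hj
      subst hj
      exact hlo
    | succ i ih =>
      intro j hj
      have h1 := ih (j + 1) (by omega)
      have h2 := tlc j
      have h3 : 0 < t (j + 1) := tpos _ (by omega)
      have h4 : 0 < t (j + 2) := tpos _ (by omega)
      have h5 : 0 < t j := tpos _ (by omega)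
      have h6 : t (j + 1) < t (j + 2) := h1
      by_contra hcon
      push Not at hcon
      nlinarith
  have hinc : ∀ j, j < m + 1 → t j < t (j + 1) := fun j hj => hinc0 (m - j) j (by omega)
  have hdec : ∀ j, m + 1 ≤ j → j ≤ q.natDegree → t (j + 1) < t j := by
    intro j hj
    induction j, hj using Nat.le_induction with
    | base => intro _; exact hup
    | succ j hj ih =>
      intro hjn
      have h1 := ih (by omega)
      have h2 := tlc j
      have h3 : 0 < t (j + 1) := tpos _ hjn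
      have h5 : 0 < t j := tpos _ (by omega)
      have h7 := tnn (j + 2)
      have h8 : t (j + 1 + 1) = t (j + 2) := rfl
      rw [h8]
      by_contra hcon
      push Not at hcon
      nlinarith
  have hdec' : ∀ i, t (m + 2 + (i + 1)) ≤ t (m + 2 + i) := by
    intro i
    rcases le_or_gt (m + 2 + i) q.natDegree with h | h
    · exact (hdec (m + 2 + i) (by omega) h).le
    · rw [hcz _ h, hcz _ (by omega)]
  obtain ⟨h1, h2, h3⟩ := kz_low t (m + 1) (fun j hj => tpos j (by omega)) hinc m (by omega)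
  have heval : q.eval (-ρ) = ∑ j ∈ Finset.range (q.natDegree + 1), (-1 : ℝ) ^ j * t j := by
    rw [Polynomial.eval_eq_sum_range]
    refine Finset.sum_congr rfl fun j _ => ?_
    rw [ht, neg_pow]
    ring
  obtain ⟨N, hN⟩ : ∃ N, q.natDegree + 1 = (m + 2) + N := ⟨q.natDegree + 1 - (m + 2), by omega⟩
  have hsplit : (-1 : ℝ) ^ (m + 1) * q.eval (-ρ)
      = t (m + 1) - (-1 : ℝ) ^ m * ∑ j ∈ Finset.range (m + 1), (-1 : ℝ) ^ j * t j
        - ∑ i ∈ Finset.range N, (-1 : ℝ) ^ i * t (m + 2 + i) := by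
    rw [heval, hN, Finset.sum_range_add, Finset.sum_range_succ]
    have h5 : (-1 : ℝ) ^ (m + 1) * (-1 : ℝ) ^ (m + 1) = 1 := by rw [← mul_pow]; norm_num
    have h6 : (-1 : ℝ) ^ (m + 1) = -(-1) ^ m := by rw [pow_succ]; ring
    have h7 : ∑ x ∈ Finset.range N, (-1 : ℝ) ^ (m + 2 + x) * t (m + 2 + x)
        = -(-1 : ℝ) ^ (m + 1) * ∑ i ∈ Finset.range N, (-1 : ℝ) ^ i * t (m + 2 + i) := by
      rw [Finset.mul_sum]
      refine Finset.sum_congr rfl fun x _ => ?_
      rw [pow_add, pow_succ]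
      ring
    rw [h7]
    linear_combination (t (m + 1) - ∑ i ∈ Finset.range N, (-1 : ℝ) ^ i * t (m + 2 + i)) * h5
      + (∑ j ∈ Finset.range (m + 1), (-1 : ℝ) ^ j * t j) * h6
  rw [hsplit]
  obtain ⟨_, h9⟩ := kz_up N (fun i => t (m + 2 + i)) (fun i => tnn _) hdec'
  simp only [add_zero] at h9
  rcases hst with h | h | h
  · have h10 := h3 h
    linarith
  · obtain ⟨N', hN'⟩ : ∃ N', N = N' + 2 := ⟨N - 2, by omega⟩
    have h10 := kz_up' N' (fun i => t (m + 2 + i)) (fun i => tnn _) hdec'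
      (hdec (m + 3) (by omega) (by omega))
    rw [← hN'] at h10
    simp only [add_zero] at h10
    linarith
  · linarith

theorem kz_card (q : ℝ[X]) (hq : q ≠ 0) (n : ℕ) (y : ℕ → ℝ) (hy : ∀ k, k < n → y (k + 1) < y k)
    (hsg : ∀ k ≤ n, 0 < (-1 : ℝ) ^ k * q.eval (y k)) : n ≤ q.roots.card := by
  classical
  have hex : ∀ k, ∃ r, k < n → y (k + 1) < r ∧ r < y k ∧ q.eval r = 0 := by
    intro k
    by_cases hk : k < n
    · have h1 := hsg k hk.le
      have h2 := hsg (k + 1) hk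
      have hc : ContinuousOn (fun x => (-1 : ℝ) ^ k * q.eval x) (Set.Icc (y (k + 1)) (y k)) := by
        fun_prop
      have h3 := intermediate_value_Ioo (hy k hk).le hc
      have h4 : (0 : ℝ) ∈ Set.Ioo ((fun x => (-1 : ℝ) ^ k * q.eval x) (y (k + 1)))
          ((fun x => (-1 : ℝ) ^ k * q.eval x) (y k)) := by
        refine ⟨?_, h1⟩
        rw [pow_succ] at h2
        simp only
        linarith
      obtain ⟨r, hr, hr2⟩ := h3 h4
      refine ⟨r, fun _ => ⟨hr.1, hr.2, ?_⟩⟩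
      simp only at hr2
      rcases mul_eq_zero.mp hr2 with h5 | h5
      · exact absurd h5 (pow_ne_zero _ (by norm_num))
      · exact h5
    · exact ⟨0, fun h => absurd h hk⟩
  choose r hr using hex
  have hanti : ∀ j k, j ≤ k → k ≤ n → y k ≤ y j := by
    intro j k hjk
    induction k, hjk using Nat.le_induction with
    | base => intro _; exact le_rfl
    | succ k hk ih => intro hkn; exact (hy k (by omega)).le.trans (ih (by omega))
  have hlt : ∀ j k, j < k → k < n → r k < r j := by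
    intro j k hjk hkn
    have h1 := (hr k hkn).2.1
    have h2 := (hr j (by omega)).1
    have h3 := hanti (j + 1) k hjk hkn.le
    linarith
  have hinj : Set.InjOn r (Finset.range n : Set ℕ) := by
    intro j hj k hk hjk
    simp only [Finset.coe_range, Set.mem_Iio] at hj hk
    rcases lt_trichotomy j k with h | h | h
    · exact absurd hjk (hlt j k h hk).ne'
    · exact h
    · exact absurd hjk (hlt k j h hj).ne
  have h1 : ((Finset.range n).image r).card = n := by
    rw [Finset.card_image_of_injOn hinj, Finset.card_range]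
  have h2 : (Finset.range n).image r ⊆ q.roots.toFinset := by
    intro x hx
    obtain ⟨k, hk, rfl⟩ := Finset.mem_image.mp hx
    rw [Multiset.mem_toFinset, Polynomial.mem_roots hq]
    exact (hr k (Finset.mem_range.mp hk)).2.2
  calc n = ((Finset.range n).image r).card := h1.symm
    _ ≤ q.roots.toFinset.card := Finset.card_le_card h2
    _ ≤ q.roots.card := Multiset.toFinset_card_le _

theorem kz_two (q : ℝ[X]) (hn : q.natDegree = 2) (hpos : 0 < q.coeff 2)
    (h : 4 * q.coeff 0 * q.coeff 2 ≤ q.coeff 1 ^ 2) : 2 ≤ q.roots.card := by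
  obtain ⟨a, ha⟩ : ∃ a, a = q.coeff 2 := ⟨_, rfl⟩
  obtain ⟨b, hb⟩ : ∃ b, b = q.coeff 1 := ⟨_, rfl⟩
  obtain ⟨c, hc⟩ : ∃ c, c = q.coeff 0 := ⟨_, rfl⟩
  have hq : q = C a * X ^ 2 + C b * X + C c := by
    rw [ha, hb, hc]
    conv_lhs => rw [Polynomial.as_sum_range_C_mul_X_pow q, hn]
    simp [Finset.sum_range_succ]
    ring
  rw [← ha] at hpos
  rw [← ha, ← hb, ← hc] at h
  obtain ⟨s, hs⟩ : ∃ s, s = Real.sqrt (b ^ 2 - 4 * c * a) := ⟨_, rfl⟩
  have hs2 : s ^ 2 = b ^ 2 - 4 * c * a := by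
    rw [hs]; exact Real.sq_sqrt (by linarith)
  have hfac : q = C a * ((X - C ((-b + s) / (2 * a))) * (X - C ((-b - s) / (2 * a)))) := by
    have e1 : a * ((-b + s) / (2 * a) + (-b - s) / (2 * a)) = -b := by
      field_simp; ring
    have e2 : a * ((-b + s) / (2 * a) * ((-b - s) / (2 * a))) = c := by
      have : (-b + s) * (-b - s) = 4 * c * a := by ring_nf; rw [hs2]; ring
      field_simp
      rw [this]
      ring
    have e3 : C a * ((X - C ((-b + s) / (2 * a))) * (X - C ((-b - s) / (2 * a))))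
        = C a * X ^ 2 - C (a * ((-b + s) / (2 * a) + (-b - s) / (2 * a))) * X
          + C (a * ((-b + s) / (2 * a) * ((-b - s) / (2 * a)))) := by
      simp only [map_mul, map_add]
      ring
    rw [e3, e1, e2, hq]
    simp only [map_neg]
    ring
  rw [hfac, Polynomial.roots_C_mul _ hpos.ne', Polynomial.roots_mul
    (mul_ne_zero (Polynomial.X_sub_C_ne_zero _) (Polynomial.X_sub_C_ne_zero _)),
    Polynomial.roots_X_sub_C, Polynomial.roots_X_sub_C]
  simp

theorem kurtz (q : ℝ[X]) (hpos : ∀ k ≤ q.natDegree, 0 < q.coeff k)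
    (h : ∀ k, k + 2 ≤ q.natDegree → 4 * q.coeff k * q.coeff (k+2) ≤ q.coeff (k+1) ^ 2) :
    q.roots.card = q.natDegree ∧ ∀ x ∈ q.roots, x < 0 := by
  classical
  have hq : q ≠ 0 := by
    intro h0
    have := hpos 0 (Nat.zero_le _)
    rw [h0] at this
    simp at this
  have hcnn : ∀ j, 0 ≤ q.coeff j := by
    intro j
    rcases le_or_gt j q.natDegree with hj | hj
    · exact (hpos j hj).le
    · rw [Polynomial.coeff_eq_zero_of_natDegree_lt hj]
  have hneg : ∀ x ∈ q.roots, x < 0 := by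
    intro x hx
    by_contra hcon
    push Not at hcon
    have h1 : q.eval x = 0 := (Polynomial.mem_roots hq).mp hx
    rw [Polynomial.eval_eq_sum_range] at h1
    have h2 : q.coeff 0 * x ^ 0 ≤ ∑ i ∈ Finset.range (q.natDegree + 1), q.coeff i * x ^ i :=
      Finset.single_le_sum (f := fun i => q.coeff i * x ^ i)
        (fun i _ => mul_nonneg (hcnn i) (pow_nonneg hcon i))
        (Finset.mem_range.mpr (Nat.succ_pos _))
    have h3 := hpos 0 (Nat.zero_le _)
    rw [h1, pow_zero, mul_one] at h2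
    linarith
  refine ⟨?_, hneg⟩
  refine le_antisymm (Polynomial.card_roots' q) ?_
  have h' : ∀ k, 4 * q.coeff k * q.coeff (k + 2) ≤ q.coeff (k + 1) ^ 2 := by
    intro k
    rcases le_or_gt (k + 2) q.natDegree with hk | hk
    · exact h k hk
    · rw [Polynomial.coeff_eq_zero_of_natDegree_lt hk, mul_zero]
      exact sq_nonneg _
  by_cases hn0 : q.natDegree = 0
  · rw [hn0]; exact Nat.zero_le _
  by_cases hn2 : q.natDegree = 2
  · rw [hn2]
    exact kz_two q hn2 (hpos 2 (by omega)) (h' 0)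
  obtain ⟨n, hn⟩ : ∃ n, n = q.natDegree := ⟨_, rfl⟩
  rw [← hn] at hpos hn0 hn2 ⊢
  obtain ⟨ρ0, hρ0⟩ : ∃ ρ0 : ℕ → ℝ, ρ0 = fun k => Real.sqrt (q.coeff (k - 1) / q.coeff (k + 1)) :=
    ⟨_, rfl⟩
  obtain ⟨M, hM⟩ : ∃ M : ℝ, M = ρ0 (n - 1) + q.coeff (n - 1) / q.coeff n + 1 := ⟨_, rfl⟩
  have hρ0nn : ∀ k, 0 ≤ ρ0 k := by intro k; rw [hρ0]; exact Real.sqrt_nonneg _
  have hcn : 0 < q.coeff n := hpos n le_rfl
  have hcn1 : 0 < q.coeff (n - 1) := hpos (n - 1) (by omega)
  have hdiv : 0 < q.coeff (n - 1) / q.coeff n := div_pos hcn1 hcn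
  have hM0 : 0 < M := by rw [hM]; linarith [hρ0nn (n - 1)]
  obtain ⟨ρ, hρ⟩ : ∃ ρ : ℕ → ℝ, ρ = fun k => if k = 0 then 0 else if k < n then ρ0 k else M :=
    ⟨_, rfl⟩
  have hρpos : ∀ k, 1 ≤ k → k < n → 0 < ρ0 k := by
    intro k hk1 hkn
    rw [hρ0]
    exact Real.sqrt_pos.mpr (div_pos (hpos _ (by omega)) (hpos _ (by omega)))
  have hρlt : ∀ k, k < n → ρ k < ρ (k + 1) := by
    intro k hk
    rw [hρ]
    simp only [Nat.add_eq_zero_iff, one_ne_zero, and_false, if_false]
    by_cases hk0 : k = 0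
    · rw [if_pos hk0]
      by_cases h1n : k + 1 < n
      · rw [if_pos h1n]
        exact hρpos _ (by omega) h1n
      · rw [if_neg h1n]
        exact hM0
    · rw [if_neg hk0, if_pos hk]
      by_cases h1n : k + 1 < n
      · rw [if_pos h1n, hρ0]
        simp only
        apply Real.sqrt_lt_sqrt
        · exact div_nonneg (hcnn _) (hcnn _)
        · obtain ⟨j, rfl⟩ : ∃ j, k = j + 1 := ⟨k - 1, by omega⟩
          simp only [Nat.add_sub_cancel]
          have c0 : 0 < q.coeff j := hpos _ (by omega)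
          have c1 : 0 < q.coeff (j + 1) := hpos _ (by omega)
          have c2 : 0 < q.coeff (j + 2) := hpos _ (by omega)
          have c3 : 0 < q.coeff (j + 3) := hpos _ (by omega)
          have l1 := h' j
          have l2 := h' (j + 1)
          have e3 : q.coeff (j + 1 + 1) = q.coeff (j + 2) := rfl
          have e4 : q.coeff (j + 1 + 2) = q.coeff (j + 3) := rfl
          have e5 : q.coeff (j + 1 + 1 + 1) = q.coeff (j + 3) := rfl
          rw [e3] at l2
          rw [e4] at l2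
          rw [e3, e5, div_lt_div_iff₀ c2 c3]
          have l3 : (4 * q.coeff j * q.coeff (j + 2)) * (4 * q.coeff (j + 1) * q.coeff (j + 3))
              ≤ q.coeff (j + 1) ^ 2 * q.coeff (j + 2) ^ 2 :=
            mul_le_mul l1 l2 (by positivity) (by positivity)
          have l4 : 0 < q.coeff (j + 1) * q.coeff (j + 2) := mul_pos c1 c2
          have l5 : 0 < q.coeff j * q.coeff (j + 3) := mul_pos c0 c3
          have l6 : (q.coeff (j + 1) * q.coeff (j + 2)) * (16 * (q.coeff j * q.coeff (j + 3)))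
              ≤ (q.coeff (j + 1) * q.coeff (j + 2)) * (q.coeff (j + 1) * q.coeff (j + 2)) := by
            linarith
          have l7 := le_of_mul_le_mul_left l6 l4
          linarith
      · rw [if_neg h1n, hM]
        have : k = n - 1 := by omega
        rw [this]
        linarith
  have hsign : ∀ k ≤ n, 0 < (-1 : ℝ) ^ k * q.eval (-ρ k) := by
    intro k hk
    rcases Nat.eq_zero_or_pos k with hk0 | hk0
    · subst hk0
      rw [hρ]
      simp only [if_true, neg_zero, pow_zero, one_mul]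
      rw [← Polynomial.coeff_zero_eq_eval_zero]
      exact hpos 0 (Nat.zero_le _)
    · obtain ⟨m, rfl⟩ : ∃ m, k = m + 1 := ⟨k - 1, by omega⟩
      have c0 : 0 < q.coeff m := hpos _ (by omega)
      have c1 : 0 < q.coeff (m + 1) := hpos _ (by omega)
      by_cases hkn : m + 1 < n
      · have hρk : ρ (m + 1) = ρ0 (m + 1) := by
          rw [hρ]; simp [hkn]
        have c2 : 0 < q.coeff (m + 2) := hpos _ (by omega)
        rw [hρk]
        have hr0 := hρpos (m + 1) (by omega) hkn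
        obtain ⟨r, hr⟩ : ∃ r, r = ρ0 (m + 1) := ⟨_, rfl⟩
        rw [← hr] at hr0 ⊢
        have hr2 : r ^ 2 = q.coeff m / q.coeff (m + 2) := by
          rw [hr, hρ0]
          exact Real.sq_sqrt (div_nonneg (hcnn _) (hcnn _))
        have ht2 : q.coeff (m + 2) * r ^ (m + 2) = q.coeff m * r ^ m := by
          rw [pow_add, hr2]; field_simp
        have ht0 : 0 < q.coeff m * r ^ m := mul_pos c0 (pow_pos hr0 m)
        have ht1 : 0 < q.coeff (m + 1) * r ^ (m + 1) := mul_pos c1 (pow_pos hr0 (m + 1))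
        have hsq : (2 * (q.coeff m * r ^ m)) ^ 2 ≤ (q.coeff (m + 1) * r ^ (m + 1)) ^ 2 := by
          calc (2 * (q.coeff m * r ^ m)) ^ 2
              = 4 * (q.coeff m * r ^ m) * (q.coeff (m + 2) * r ^ (m + 2)) := by rw [ht2]; ring
            _ = 4 * q.coeff m * q.coeff (m + 2) * (r ^ (m + 1)) ^ 2 := by ring
            _ ≤ q.coeff (m + 1) ^ 2 * (r ^ (m + 1)) ^ 2 :=
                mul_le_mul_of_nonneg_right (h' m) (sq_nonneg _)
            _ = (q.coeff (m + 1) * r ^ (m + 1)) ^ 2 := by ring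
        have h2 : 2 * (q.coeff m * r ^ m) ≤ q.coeff (m + 1) * r ^ (m + 1) :=
          le_of_sq_le_sq hsq ht1.le
        refine kz_sign q (by rw [← hn]; exact hpos) h' r hr0 m (by omega) (by linarith)
          (by rw [ht2]; linarith) (by rw [ht2]; linarith) ?_
        rcases Nat.eq_zero_or_pos m with hm0 | hm0
        · right; left; omega
        · left; exact hm0
      · have hmn : m + 1 = n := by omega
        have hρk : ρ (m + 1) = M := by
          rw [hρ]; simp [hkn]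
        rw [hρk]
        have hz : q.coeff (m + 2) = 0 :=
          Polynomial.coeff_eq_zero_of_natDegree_lt (by omega)
        have hMc : q.coeff m < q.coeff (m + 1) * M := by
          have h3 : q.coeff (n - 1) / q.coeff n < M := by rw [hM]; linarith [hρ0nn (n - 1)]
          rw [div_lt_iff₀ hcn] at h3
          have h4 : n - 1 = m := by omega
          rw [h4, ← hmn] at h3
          linarith
        have hlt : q.coeff m * M ^ m < q.coeff (m + 1) * M ^ (m + 1) := by
          calc q.coeff m * M ^ m < (q.coeff (m + 1) * M) * M ^ m :=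
                mul_lt_mul_of_pos_right hMc (pow_pos hM0 m)
            _ = q.coeff (m + 1) * M ^ (m + 1) := by ring
        have ht1 : 0 < q.coeff (m + 1) * M ^ (m + 1) := mul_pos c1 (pow_pos hM0 (m + 1))
        refine kz_sign q (by rw [← hn]; exact hpos) h' M hM0 m (by omega) hlt
          (by rw [hz, zero_mul]; exact ht1) (by rw [hz, zero_mul]; linarith) ?_
        right; right
        rw [hz, zero_mul]; linarith
  exact kz_card q hq n (fun k => -ρ k) (fun k hk => by have := hρlt k hk; linarith) hsign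


theorem T_scale (c : ℝ) (p : ℝ[X]) (r : ℕ) (k : ℤ) :
    T (coefZ (C c * p)) r k = c^r * T (coefZ p) r k := by
  unfold T
  have : (Matrix.of fun i j : Fin r => coefZ (C c * p) (k - (i:ℕ) + (j:ℕ))) =
      c • (Matrix.of fun i j : Fin r => coefZ p (k - (i:ℕ) + (j:ℕ))) := by
    ext i j; simp [coefZ]
  rw [this, Matrix.det_smul, Fintype.card_fin]

theorem exists_roots (p : ℝ[X]) (hpos : ∀ k ≤ p.natDegree, 0 < p.coeff k)
    (hr : p.roots.card = p.natDegree) :
    ∃ (y : Fin p.natDegree → ℝ), Monotone y ∧ (∀ i, 0 ≤ y i) ∧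
      p = C p.leadingCoeff * ∏ i, (X + C (y i)) := by
  classical
  have hp0 : p ≠ 0 := by
    intro h; have := hpos 0 (Nat.zero_le _); simp [h] at this
  set l : List ℝ := (p.roots.map Neg.neg).sort (· ≤ ·) with hl
  have hlen : l.length = p.natDegree := by
    rw [hl, Multiset.length_sort, Multiset.card_map, hr]
  have hsorted : l.Pairwise (· ≤ ·) := Multiset.pairwise_sort _ _
  have hneg : ∀ x ∈ l, 0 ≤ x := by
    intro x hx
    rw [hl, Multiset.mem_sort, Multiset.mem_map] at hx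
    obtain ⟨z, hz, rfl⟩ := hx
    by_contra hcon
    have hz0 : 0 < z := by simpa using hcon
    have hroot : p.eval z = 0 := (Polynomial.mem_roots hp0).1 hz
    rw [Polynomial.eval_eq_sum_range] at hroot
    have : 0 < ∑ i ∈ Finset.range (p.natDegree + 1), p.coeff i * z ^ i := by
      apply Finset.sum_pos
      · intro i hi
        have := hpos i (Nat.lt_succ_iff.1 (Finset.mem_range.1 hi))
        positivity
      · exact ⟨0, by simp⟩
    linarith
  refine ⟨fun i => l.get (Fin.cast hlen.symm i), ?_, ?_, ?_⟩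
  · intro i j hij
    rcases eq_or_lt_of_le hij with h | h
    · rw [h]
    · exact List.pairwise_iff_get.1 hsorted _ _ h
  · intro i
    exact hneg _ (List.get_mem _ _)
  · have h1 := Polynomial.C_leadingCoeff_mul_prod_multiset_X_sub_C hr
    have h2 : (p.roots.map (fun a => X - C a)).prod = ∏ i : Fin p.natDegree, (X + C (l.get (Fin.cast hlen.symm i))) := by
      have h3 : (p.roots.map (fun a => X - C a)) = ((p.roots.map Neg.neg).map (fun a => X + C a)) := by
        rw [Multiset.map_map]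
        apply Multiset.map_congr rfl
        intro x _
        simp [sub_eq_add_neg]
      have h4 : ((p.roots.map Neg.neg).map (fun a => X + C a)).prod = (l.map (fun a => X + C a)).prod := by
        conv_lhs => rw [← Multiset.sort_eq (p.roots.map Neg.neg) (· ≤ ·)]
        rw [Multiset.map_coe, Multiset.prod_coe]
      rw [h3, h4]
      have h5 : (l.map (fun a => X + C a)) = List.ofFn (fun i : Fin p.natDegree => X + C (l.get (Fin.cast hlen.symm i))) := by
        apply List.ext_get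
        · simp [hlen]
        · intro n h1 h2
          simp
      rw [h5, List.prod_ofFn]
    rw [← h2, h1]

theorem T_pos (n a : ℕ) (ha : a ≤ n) (y : Fin n → ℝ) (hy : Monotone y) (hy0 : ∀ i, 0 ≤ y i)
    (hc : 0 < (∏ i, (X + C (y i))).coeff a) (r : ℕ) :
    0 < T (coefZ (∏ i, (X + C (y i)))) r a ∧ 0 < T (coefZ (∏ i, (X + C (y i)))) (r+1) a := by
  induction r with
  | zero =>
    constructor
    · simp [T]
    · simpa [T, coefZ] using hc
  | succ r ih =>
    refine ⟨ih.2, ?_⟩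
    have h := T_ineq n a r ha y hy hy0
    set t0 := T (coefZ (∏ i, (X + C (y i)))) r a
    set t1 := T (coefZ (∏ i, (X + C (y i)))) (r+1) a
    have e : r + 1 + 1 = r + 2 := rfl
    rw [e]
    set t2 := T (coefZ (∏ i, (X + C (y i)))) (r+2) a
    have hna : (0:ℝ) ≤ (n:ℝ) - a := by
      have : (a:ℝ) ≤ n := by exact_mod_cast ha
      linarith
    have h1 : 0 < ((r:ℝ)+1)*(r+1+n) * t1^2 := by
      have := ih.2; positivity
    have h2 : 0 < ((r:ℝ)+1+(n-a))*(r+1+a) * t0 := by
      have := ih.1; positivity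
    by_contra hcon
    push Not at hcon
    nlinarith

theorem newton_ineq (p : ℝ[X]) (hpos : ∀ k ≤ p.natDegree, 0 < p.coeff k)
    (hr : p.roots.card = p.natDegree) (r k : ℕ) (hr1 : 1 ≤ r) (hk : k ≤ p.natDegree) :
    0 < T (coefZ p) r k ∧
    ((r:ℝ) + k) * (r + (p.natDegree - k)) * (T (coefZ p) r (k-1) * T (coefZ p) r (k+1)) ≤
      k * (p.natDegree - k) * T (coefZ p) r k ^ 2 := by
  have hlead : 0 < p.leadingCoeff := hpos _ le_rfl
  obtain ⟨n, hn⟩ : ∃ n, p.natDegree = n := ⟨_, rfl⟩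
  obtain ⟨y, hy, hy0, hp⟩ : ∃ (y : Fin n → ℝ), Monotone y ∧ (∀ i, 0 ≤ y i) ∧
      p = C p.leadingCoeff * ∏ i, (X + C (y i)) := by
    subst hn
    exact exists_roots p hpos hr
  rw [hn] at hk
  rw [hn]
  have hc : 0 < (∏ i, (X + C (y i))).coeff k := by
    have h := hpos k (hn ▸ hk)
    rw [hp, coeff_C_mul] at h
    exact (pos_iff_pos_of_mul_pos h).1 hlead
  obtain ⟨s, rfl⟩ : ∃ s, r = s + 1 := ⟨r - 1, by omega⟩
  have hscale : ∀ r k, T (coefZ p) r k = p.leadingCoeff ^ r * T (coefZ (∏ i, (X + C (y i)))) r k := by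
    intro r k
    rw [← T_scale, ← hp]
  have h := T_ineq n k s hk y hy hy0
  have hcd := toeplitz_condense (coefZ (∏ i, (X + C (y i)))) s k
  have hT := T_pos n k hk y hy hy0 hc s
  constructor
  · rw [hscale]; have := hT.2; positivity
  · rw [hscale, hscale, hscale]
    set L := p.leadingCoeff ^ (s+1)
    have hL : 0 < L := by positivity
    have key : (((s+1:ℕ):ℝ) + k) * (((s+1:ℕ):ℝ) + (n - k)) *
        (T (coefZ (∏ i, (X + C (y i)))) (s+1) (k-1) * T (coefZ (∏ i, (X + C (y i)))) (s+1) (k+1)) ≤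
        k * (n - k) * T (coefZ (∏ i, (X + C (y i)))) (s+1) k ^ 2 := by
      push_cast
      set t0 := T (coefZ (∏ i, (X + C (y i)))) s k
      set t1 := T (coefZ (∏ i, (X + C (y i)))) (s+1) k
      set t2 := T (coefZ (∏ i, (X + C (y i)))) (s+2) k
      set tm := T (coefZ (∏ i, (X + C (y i)))) (s+1) (k-1)
      set tp := T (coefZ (∏ i, (X + C (y i)))) (s+1) (k+1)
      have e1 : ((s:ℝ)+1+(n-k))*(s+1+k) * t0 * t2 = ((s:ℝ)+1+(n-k))*(s+1+k) * (t1^2 - tm * tp) := by
        rw [← hcd]; ring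
      rw [e1] at h
      nlinarith
    have hL2 : 0 < L^2 := by positivity
    calc _ = L^2 * ((((s+1:ℕ):ℝ) + k) * (((s+1:ℕ):ℝ) + (n - k)) *
        (T (coefZ (∏ i, (X + C (y i)))) (s+1) (k-1) * T (coefZ (∏ i, (X + C (y i)))) (s+1) (k+1))) := by ring
      _ ≤ L^2 * (k * (n - k) * T (coefZ (∏ i, (X + C (y i)))) (s+1) k ^ 2) :=
        mul_le_mul_of_nonneg_left key hL2.le
      _ = _ := by ring

theorem fisk_le_two_mul (p : ℝ[X]) (hpos : ∀ k ≤ p.natDegree, 0 < p.coeff k)
    (hr : p.roots.card = p.natDegree) (r : ℕ) (hr1 : 1 ≤ r) (hn : p.natDegree ≤ 2 * r) (q : ℝ[X])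
    (hq : q = ∑ k ∈ Finset.range (p.natDegree + 1), C (T (coefZ p) r k) * X ^ k) :
    q.roots.card = q.natDegree ∧ ∀ x ∈ q.roots, x < 0 := by
  have hcoef : ∀ k, q.coeff k = if k ≤ p.natDegree then T (coefZ p) r k else 0 := by
    intro k
    rw [hq, finsetSum_coeff]
    simp only [coeff_C_mul, coeff_X_pow]
    simp [Finset.sum_ite_eq]
  have hpos' : ∀ k ≤ p.natDegree, 0 < q.coeff k := by
    intro k hk
    rw [hcoef, if_pos hk]
    exact (newton_ineq p hpos hr r k hr1 hk).1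
  have hdeg : q.natDegree = p.natDegree := by
    apply le_antisymm
    · rw [Polynomial.natDegree_le_iff_coeff_eq_zero]
      intro N hN
      rw [hcoef, if_neg (by omega)]
    · exact le_natDegree_of_ne_zero (hpos' _ le_rfl).ne'
  apply kurtz
  · intro k hk; exact hpos' k (hdeg ▸ hk)
  · intro k hk
    rw [hdeg] at hk
    rw [hcoef, hcoef, hcoef, if_pos (by omega), if_pos hk, if_pos (by omega)]
    have h := (newton_ineq p hpos hr r (k+1) hr1 (by omega)).2
    have e1 : (((k+1:ℕ):ℤ) - 1) = (k:ℤ) := by push_cast; ring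
    have e2 : (((k+1:ℕ):ℤ) + 1) = ((k+2:ℕ):ℤ) := by push_cast; ring
    rw [e1, e2] at h
    set t0 := T (coefZ p) r k
    set t1 := T (coefZ p) r ((k+1:ℕ):ℤ)
    set t2 := T (coefZ p) r ((k+2:ℕ):ℤ)
    have p0 : 0 < t0 := (newton_ineq p hpos hr r k hr1 (by omega)).1
    have p2 : 0 < t2 := (newton_ineq p hpos hr r (k+2) hr1 (by omega)).1
    have hA : 0 < ((k+1:ℕ):ℝ) := by positivity
    have hB : 0 < (p.natDegree : ℝ) - ((k+1:ℕ):ℝ) := by
      have : ((k + 2 : ℕ) : ℝ) ≤ p.natDegree := by exact_mod_cast hk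
      push_cast at this ⊢; linarith
    have hn' : (p.natDegree : ℝ) ≤ 2 * r := by exact_mod_cast hn
    set A := ((k+1:ℕ):ℝ)
    set B := (p.natDegree : ℝ) - A with hBdef
    have hAB : A + B ≤ 2 * r := by rw [hBdef]; linarith
    have h4 : 4 * (A * B) ≤ ((r:ℝ) + A) * (r + B) := by
      nlinarith [sq_nonneg (A - B), mul_pos hA hB]
    have h5 : 4 * (A * B) * (t0 * t2) ≤ A * B * t1 ^ 2 := by
      refine le_trans ?_ h
      exact mul_le_mul_of_nonneg_right h4 (by positivity)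
    have h6 : 0 < A * B := mul_pos hA hB
    have h7 : (A * B) * (4 * t0 * t2) ≤ (A * B) * t1 ^ 2 := by nlinarith
    exact le_of_mul_le_mul_left h7 h6

end Pool.Agent.Helper80.Fisk
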